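import Pool.Agent.NH62.AX.Iter

/-!
Axisymmetric flows: ancient solutions (helper62).
-/

set_option autoImplicit false

open MeasureTheory Set Metric Filter Topology
open scoped ContDiff

namespace Pool.Agent.NH62.AX

open H459R3.NS W221.NS Pool.Agent.TH305.DR Pool.Agent.TH305.AX

variable {ν : ℝ} {u : ℝ → V → V} {p : ℝ → V → ℝ}

lemma dd_le {κ₁ ε L : ℝ} (h0 : 0 ≤ κ₁) (hε : 0 < ε) (hε1 : ε < 1) (hL : 0 < Real.log L) :
    dd κ₁ ε L ≤ 1 := by
  unfold dd
  have h1 : Real.exp (-(κ₁ * Real.log L)) ≤ 1 := by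
    rw [Real.exp_le_one_iff]
    have := mul_nonneg h0 hL.le
    linarith
  have h2 := Real.exp_pos (-Real.log L)
  have h3 := Real.exp_pos (-(4 * Real.log L))
  nlinarith [Real.exp_pos (-(κ₁ * Real.log L))]

/-- The facts about the large scales. -/
lemma numA {ν κ₁ ε Λ r s : ℝ} (hν : 0 < ν) (h1 : κ₁ < 1) (hε : 0 < ε)
    (hΛ : 0 < Λ) :
    ∃ k₀ : ℕ, 0 < k₀ ∧ ∀ k : ℕ, k₀ ≤ k → 1 < k * Λ ∧ 0 < Real.log (k * Λ) ∧
      Real.exp (-(ε ^ 2 / (1 + ε ^ 2) * Real.log (k * Λ))) ≤ 1 / 2 ∧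
      4 / (k * Λ) ≤ dd κ₁ ε (k * Λ) ∧ s ≤ Real.exp (k * Λ) ∧
      r ≤ 4 * √(4 * ν * Real.exp (k * Λ) * Real.log (k * Λ)) := by
  have a1 : ∀ᶠ L in atTop, (1 : ℝ) < L := eventually_gt_atTop 1
  have a2 : ∀ᶠ L in atTop, Real.exp (-(ε ^ 2 / (1 + ε ^ 2) * Real.log L)) ≤ 1 / 2 := by
    have t : Tendsto (fun L => Real.exp (-(ε ^ 2 / (1 + ε ^ 2) * Real.log L))) atTop (𝓝 0) :=
      Real.tendsto_exp_neg_atTop_nhds_zero.comp
        (Real.tendsto_log_atTop.const_mul_atTop (by positivity))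
    filter_upwards [t.eventually (gt_mem_nhds (show (0 : ℝ) < 1 / 2 by norm_num))] with L hL
    exact hL.le
  have a3 := dd_big (κ' := 1) (m := 1) h1 (by linarith : κ₁ < 1) hε
  have a4 : ∀ᶠ L : ℝ in atTop, s ≤ Real.exp L := Real.tendsto_exp_atTop.eventually_ge_atTop s
  have a5 : ∀ᶠ L : ℝ in atTop, r ≤ 4 * √(4 * ν * Real.exp L * Real.log L) := by
    have t : Tendsto (fun L : ℝ => 4 * √(4 * ν * Real.exp L * Real.log L)) atTop atTop := by
      apply Tendsto.const_mul_atTop (by norm_num)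
      apply Real.tendsto_sqrt_atTop.comp
      exact (Real.tendsto_exp_atTop.const_mul_atTop (by positivity)).atTop_mul_atTop₀
        Real.tendsto_log_atTop
    exact t.eventually_ge_atTop r
  have tk : Tendsto (fun k : ℕ => (k : ℝ) * Λ) atTop atTop :=
    tendsto_natCast_atTop_atTop.atTop_mul_const hΛ
  obtain ⟨k₀, hk₀⟩ := eventually_atTop.1 (tk.eventually
    (a1.and (a2.and (a3.and (a4.and a5)))))
  refine ⟨k₀ + 1, Nat.succ_pos _, fun k hk => ?_⟩
  obtain ⟨b1, b2, b3, b4, b5⟩ := hk₀ k (by omega)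
  refine ⟨b1, Real.log_pos b1, b2, ?_, b4, b5⟩
  refine le_trans (le_of_eq ?_) b3
  have h0 : 0 < (k : ℝ) * Λ := by linarith
  rw [Real.rpow_neg_one, one_mul, inv_div]

lemma prod_zero {d : ℕ → ℝ} {k₁ : ℕ} {c : ℝ} (hc : 0 < c) (hk : 0 < k₁) (hd1 : ∀ k, k₁ ≤ k → d k ≤ 1)
    (hd : ∀ k, k₁ ≤ k → c / k ≤ d k) :
    Tendsto (fun N : ℕ => ∏ i ∈ Finset.range N, (1 - d (k₁ + N - i))) atTop (𝓝 0) := by
  have e1 : ∀ N : ℕ, ∏ i ∈ Finset.range N, (1 - d (k₁ + N - i))
      = ∏ i ∈ Finset.range N, (1 - d (k₁ + (i + 1))) := by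
    intro N
    rw [← Finset.prod_range_reflect]
    apply Finset.prod_congr rfl
    intro i hi
    have hi' := Finset.mem_range.1 hi
    congr 2
    omega
  have h0 : ∀ N : ℕ, 0 ≤ ∏ i ∈ Finset.range N, (1 - d (k₁ + (i + 1))) := fun N =>
    Finset.prod_nonneg fun i _ => by linarith [hd1 (k₁ + (i + 1)) (by omega)]
  have h1 : ∀ N : ℕ, ∏ i ∈ Finset.range N, (1 - d (k₁ + (i + 1)))
      ≤ Real.exp (-(c / (k₁ + 1) * ∑ i ∈ Finset.range N, 1 / ((i : ℝ) + 1))) := by
    intro N
    rw [Finset.mul_sum, ← Finset.sum_neg_distrib, Real.exp_sum]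
    apply Finset.prod_le_prod
    · intro i _
      linarith [hd1 (k₁ + (i + 1)) (by omega)]
    · intro i _
      have h2 := hd (k₁ + (i + 1)) (by omega)
      have h3 : c / (k₁ + 1) * (1 / ((i : ℝ) + 1)) ≤ c / ((k₁ + (i + 1) : ℕ) : ℝ) := by
        rw [div_mul_div_comm, mul_one]
        apply div_le_div_of_nonneg_left hc.le
        · push_cast
          positivity
        · push_cast
          have h4 : (0 : ℝ) ≤ k₁ := Nat.cast_nonneg _
          have h5 : (0 : ℝ) ≤ i := Nat.cast_nonneg _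
          nlinarith [mul_nonneg h4 h5]
      have h4 := Real.add_one_le_exp (-(c / (k₁ + 1) * (1 / ((i : ℝ) + 1))))
      linarith
  have t : Tendsto (fun N : ℕ => Real.exp (-(c / (k₁ + 1) *
      ∑ i ∈ Finset.range N, 1 / ((i : ℝ) + 1)))) atTop (𝓝 0) := by
    apply Real.tendsto_exp_neg_atTop_nhds_zero.comp
    apply Tendsto.const_mul_atTop (by positivity)
    exact Real.tendsto_sum_range_one_div_nat_succ_atTop
  refine squeeze_zero (fun N => by rw [e1]; exact h0 N) (fun N => by rw [e1]; exact h1 N) t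

theorem anc {M δ κ s₁ : ℝ} (hν : 0 < ν)
    (h : ∀ t₀ < 0, BSol ν (-t₀) (fun t => u (t₀ + t)) (fun t => p (t₀ + t)))
    (hM : ∀ t < 0, ∀ x, |circ (u t) x| ≤ M) (hδ : 0 < δ) (hκ : 0 < κ) (hκ1 : κ < 1)
    {G g : ℝ → ℝ} (hG : ∀ t < 0, HasDerivAt G (g t) t) (hg : ∀ t < 0, 0 ≤ g t)
    (hmod : ∀ t t', t < t' → t' < 0 → s₁ ≤ t' - t →
      G t' - G t ≤ √(4 * κ * ν * (t' - t) * Real.log (Real.log (t' - t))))
    (hcond : ∀ t < 0, ∀ x, 0 < √(sg x) → δ < |circ (u t) x| →
      -ν - g t * √(sg x) ≤ x 0 * u t x 0 + x 1 * u t x 1) :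
    ∀ t < 0, ∀ x, |circ (u t) x| ≤ 2 * δ := by
  intro t ht x
  obtain ⟨κ₁, hκ₁⟩ : ∃ κ₁, κ₁ = (κ + 1) / 2 := ⟨_, rfl⟩
  have k1 : κ < κ₁ := by rw [hκ₁]; linarith
  have k3 : κ₁ < 1 := by rw [hκ₁]; linarith
  have k0 : 0 ≤ κ₁ := by linarith
  obtain ⟨ε, hε, hε6, hκε⟩ := par_eps hκ k1
  have hε1 : ε < 1 := by linarith
  obtain ⟨Λ, hΛ⟩ : ∃ Λ, Λ = -(2 * Real.log ε) := ⟨_, rfl⟩
  have hΛ0 : 0 < Λ := by
    have := Real.log_neg hε hε1
    rw [hΛ]; linarith
  obtain ⟨t₀, hta, htb⟩ := exists_between ht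
  obtain ⟨k₁, hk₁, H⟩ := numA (r := √(sg x)) (s := max s₁ (t₀ - t)) hν k3 hε hΛ0
  obtain ⟨L, hL⟩ : ∃ L : ℕ → ℝ, L = fun k : ℕ => (k : ℝ) * Λ := ⟨_, rfl⟩
  have hLk : ∀ k, L k = k * Λ := fun k => by rw [hL]
  have hL1 : ∀ k, L (k + 1) = L k + Λ := fun k => by rw [hL]; push_cast; ring
  have hS1 : ∀ k, Real.exp (L k) = ε ^ 2 * Real.exp (L (k + 1)) := by
    intro k
    have h1 : ε ^ 2 = Real.exp (-Λ) := by
      rw [hΛ, neg_neg, two_mul, Real.exp_add, Real.exp_log hε]
      ring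
    rw [hL1, h1, ← Real.exp_add]
    congr 1
    ring
  have hmono' : ∀ a b, a ≤ b → b < 0 → G a ≤ G b := by
    intro a b hab hb
    exact mono_of_hd (a := a - 1) (b := 0) (fun t ht => hG t ht.2) (fun t ht => hg t ht.2)
      ⟨by linarith, by linarith⟩ ⟨by linarith, hb⟩ hab
  obtain ⟨d, hd⟩ : ∃ d : ℕ → ℝ, d = fun k => dd κ₁ ε (L k) := ⟨_, rfl⟩
  have hM0 : 0 ≤ M := (abs_nonneg _).trans (hM t ht x)
  have hd1 : ∀ k, k₁ ≤ k → d k ≤ 1 := by
    intro k hk
    rw [hd]
    exact dd_le k0 hε hε1 (by rw [hLk]; exact (H k hk).2.1)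
  -- the iteration
  have main : ∀ N n : ℕ, n ≤ N → ∀ τ ∈ Ico (t₀ - Real.exp (L (k₁ + N - n))) t₀, ∀ y,
      √(sg y) ≤ 4 * √(4 * ν * Real.exp (L (k₁ + N - n)) * Real.log (L (k₁ + N - n))) →
      |circ (u τ) y| ≤ max (2 * δ) (M * ∏ i ∈ Finset.range n, (1 - d (k₁ + N - i))) := by
    intro N n
    induction n with
    | zero =>
      intro _ τ hτ y _
      rw [Finset.prod_range_zero, mul_one]
      exact (hM τ (hτ.2.trans htb) y).trans (le_max_right _ _)
    | succ n ih =>
      intro hn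
      have ih' := ih (by omega)
      obtain ⟨k, hk⟩ : ∃ k, k = k₁ + N - n := ⟨_, rfl⟩
      obtain ⟨j, hj⟩ : ∃ j, j = k₁ + N - (n + 1) := ⟨_, rfl⟩
      have hkj : k = j + 1 := by omega
      have hjk : k₁ ≤ j := by omega
      have hkk : k₁ ≤ k := by omega
      rw [Finset.prod_range_succ]
      rw [← hk] at ih' ⊢
      rw [← hj]
      obtain ⟨W, hW⟩ : ∃ W, W = max (2 * δ) (M * ∏ i ∈ Finset.range n, (1 - d (k₁ + N - i))) :=
        ⟨_, rfl⟩
      rw [← hW] at ih'
      have hWδ : 2 * δ ≤ W := by rw [hW]; exact le_max_left _ _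
      obtain ⟨b1, b2, b3, b4, b5, -⟩ := H k hkk
      rw [← hLk] at b1 b2 b3 b4 b5
      obtain ⟨s, hs⟩ : ∃ s, s = Real.exp (L k) := ⟨_, rfl⟩
      have hs0 : 0 < s := by rw [hs]; exact Real.exp_pos _
      obtain ⟨a, ha⟩ : ∃ a, a = t₀ - s := ⟨_, rfl⟩
      rw [← hs] at b5 ih'
      have ha0 : a < 0 := by linarith
      have hsol : BSol ν s (fun t => u (a + t)) (fun t => p (a + t)) :=
        (h a ha0).restrict (by linarith)
      have hI : ∀ τ ∈ Ico 0 s, a + τ < 0 := fun τ hτ => by linarith [hτ.2]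
      have key := win (M := W) (c := 0) (z₀ := 0) (l := Real.log (L k))
        (Y := fun τ => G (a + τ) - G a) (g := fun τ => g (a + τ)) hν hκ k3.le hε hε6 hκε hs0 b2
        b3 hsol (by linarith) (Or.inl rfl)
        (by
          intro τ hτ y hy _
          exact ih' (a + τ) ⟨by linarith [hτ.1], by linarith [hτ.2]⟩ y hy)
        (by simp)
        (by
          intro τ hτ
          have h1 : ContinuousAt G (a + τ) := (hG _ (hI τ hτ)).continuousAt
          have h2 : ContinuousAt (fun τ => G (a + τ) - G a) τ :=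
            (ContinuousAt.comp (g := G) (f := fun τ => a + τ) h1 (by fun_prop)).sub
              continuousAt_const
          exact h2.continuousWithinAt)
        (by
          intro τ hτ
          have h1 := hG _ (hI τ (Ioo_subset_Ico_self hτ))
          have h2 : HasDerivAt (fun τ : ℝ => a + τ) 1 τ := (hasDerivAt_id τ).const_add a
          have h3 := (h1.comp τ h2).sub_const (G a)
          exact h3.congr_deriv (by ring))
        (by
          intro τ hτ
          have h1 := hmono' a (a + τ) (by linarith [hτ.1]) (hI τ hτ)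
          show 0 ≤ G (a + τ) - G a
          linarith)
        (by
          intro τ hτ
          have h1 := hmono' (a + τ) t₀ (by linarith [hτ.2]) htb
          have h2 := hmod a t₀ (by linarith) htb (by
            have := (le_max_left s₁ (t₀ - t)).trans b5
            linarith)
          have h3 : t₀ - a = s := by linarith
          have h4 : Real.log s = L k := by rw [hs, Real.log_exp]
          rw [h3, h4] at h2
          show G (a + τ) - G a ≤ _
          linarith)
        (fun τ hτ => hg _ (hI τ (Ioo_subset_Ico_self hτ)))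
        (by
          intro τ hτ y hy0 _ _ hbig
          exact ⟨hcond (a + τ) (hI τ (Ioo_subset_Ico_self hτ)) y hy0 (by linarith),
            fun h01 => absurd h01 (by norm_num)⟩)
      intro τ hτ y hy
      have hrad : 4 * √(4 * ν * Real.exp (L j) * Real.log (L j))
          ≤ 6 * ε * √(4 * ν * s * Real.log (L k)) := by
        have hjlog : 0 < Real.log (L j) := by rw [hLk]; exact (H j hjk).2.1
        have hjk' : Real.log (L j) ≤ Real.log (L k) := by
          apply Real.log_le_log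
          · rw [hLk]; linarith [(H j hjk).1]
          · rw [hkj, hL1]; linarith
        have e1 : √(4 * ν * Real.exp (L j) * Real.log (L j))
            ≤ ε * √(4 * ν * s * Real.log (L k)) := by
          have e3 : ε * √(4 * ν * s * Real.log (L k))
              = √(ε ^ 2 * (4 * ν * s * Real.log (L k))) := by
            rw [Real.sqrt_mul (show (0 : ℝ) ≤ ε ^ 2 by positivity) (4 * ν * s * Real.log (L k)),
              Real.sqrt_sq hε.le]
          rw [e3]
          apply Real.sqrt_le_sqrt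
          have e4 : Real.exp (L j) = ε ^ 2 * s := by rw [hS1 j, hs, hkj]
          rw [e4]
          calc 4 * ν * (ε ^ 2 * s) * Real.log (L j) ≤ 4 * ν * (ε ^ 2 * s) * Real.log (L k) := by
                gcongr
            _ = _ := by ring
        have e2 : 0 ≤ ε * √(4 * ν * s * Real.log (L k)) := by positivity
        linarith
      have h1 := key (τ - a) (by
        have e2 : Real.exp (L j) = ε ^ 2 * s := by rw [hS1 j, hs, hkj]
        rw [e2] at hτ
        exact ⟨by linarith [hτ.1], by linarith [hτ.2]⟩) y (hy.trans hrad) (by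
          rw [zero_mul]
          positivity)
      have e3 : a + (τ - a) = τ := by ring
      rw [e3] at h1
      have hdk : d k = ε / 2 * Real.exp (-(κ₁ * Real.log (L k))) - Real.exp (-Real.log (L k))
          - 2 * Real.exp (-(4 * Real.log (L k))) := by rw [hd]; rfl
      rw [← hdk] at h1
      have hd0 : 0 ≤ d k := by
        refine le_trans ?_ (show 4 / L k ≤ d k by rw [hd]; exact b4)
        positivity
      have hdk1 := hd1 k hkk
      refine h1.trans ?_
      rw [hW]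
      rcases le_total (2 * δ) (M * ∏ i ∈ Finset.range n, (1 - d (k₁ + N - i))) with h2 | h2
      · rw [max_eq_right h2, mul_assoc]
        exact le_max_right _ _
      · rw [max_eq_left h2]
        refine le_trans ?_ (le_max_left _ _)
        nlinarith
  -- the limit
  have hfin : ∀ N : ℕ, |circ (u t) x|
      ≤ max (2 * δ) (M * ∏ i ∈ Finset.range N, (1 - d (k₁ + N - i))) := by
    intro N
    have e : k₁ + N - N = k₁ := by omega
    have h1 := main N N le_rfl t
    rw [e] at h1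
    obtain ⟨-, -, -, -, b5, b6⟩ := H k₁ le_rfl
    rw [← hLk] at b5 b6
    exact h1 ⟨by have := (le_max_right s₁ (t₀ - t)).trans b5; linarith, hta⟩ x b6
  have hlim : Tendsto (fun N : ℕ => max (2 * δ)
      (M * ∏ i ∈ Finset.range N, (1 - d (k₁ + N - i)))) atTop (𝓝 (max (2 * δ) (M * 0))) := by
    apply Tendsto.max tendsto_const_nhds
    apply Tendsto.const_mul
    exact prod_zero (c := 4 / Λ) (by positivity) hk₁ hd1 (fun k hk => by
      have h1 := (H k hk).2.2.2.1
      rw [← hLk] at h1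
      rw [hd]
      refine le_trans (le_of_eq ?_) h1
      rw [hLk, div_div, mul_comm])
  have := ge_of_tendsto' hlim hfin
  rw [mul_zero, max_eq_left (by linarith)] at this
  exact this

end Pool.Agent.NH62.AX
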