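import Pool.Agent.NH62.AX.Cmp

/-!
Axisymmetric flows: the heat kernel barrier (helper62).
-/

set_option autoImplicit false

open MeasureTheory Set Metric Filter Topology
open scoped ContDiff

namespace Pool.Agent.NH62.AX

open H459R3.NS W221.NS Pool.Agent.TH305.DR Pool.Agent.TH305.AX

/-- The logarithm of the heat kernel. -/
noncomputable def LL (ν s₀ y₀ τ y : ℝ) : ℝ :=
  (Real.log s₀ - Real.log (τ + s₀)) / 2 - (y + y₀) ^ 2 / (4 * ν * (τ + s₀))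

/-- The heat kernel. -/
noncomputable def KK (ν s₀ y₀ τ y : ℝ) : ℝ := Real.exp (LL ν s₀ y₀ τ y)

section
variable {ν s₀ y₀ : ℝ}

lemma KK_pos (τ y : ℝ) : 0 < KK ν s₀ y₀ τ y := Real.exp_pos _

lemma LL_hdy (hν : 0 < ν) {τ y : ℝ} (hτ : 0 < τ + s₀) :
    HasDerivAt (fun r => LL ν s₀ y₀ τ r) (-((y + y₀) / (2 * ν * (τ + s₀)))) y := by
  unfold LL
  have h1 : HasDerivAt (fun r : ℝ => (r + y₀) ^ 2) (2 * (y + y₀)) y := by
    have := ((hasDerivAt_id y).add_const y₀).pow 2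
    refine this.congr_deriv ?_
    simp
  refine ((h1.div_const (4 * ν * (τ + s₀))).const_sub _).congr_deriv ?_
  field_simp
  ring

lemma LL_hd {Y : ℝ → ℝ} {g t w : ℝ} (hν : 0 < ν) (ht : 0 < t + s₀) (hY : HasDerivAt Y g t) :
    HasDerivAt (fun τ => LL ν s₀ y₀ τ (w + Y τ))
      (-(1 / (2 * (t + s₀))) + (w + Y t + y₀) ^ 2 / (4 * ν * (t + s₀) ^ 2)
        - g * ((w + Y t + y₀) / (2 * ν * (t + s₀)))) t := by
  unfold LL
  have h1 : HasDerivAt (fun τ : ℝ => τ + s₀) 1 t := (hasDerivAt_id t).add_const s₀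
  have h2 : HasDerivAt (fun τ : ℝ => Real.log (τ + s₀)) (1 / (t + s₀)) t := h1.log ht.ne'
  have h3 : HasDerivAt (fun τ : ℝ => (w + Y τ + y₀) ^ 2) (2 * (w + Y t + y₀) * g) t := by
    have := (((hY.const_add w).add_const y₀)).pow 2
    refine this.congr_deriv ?_
    simp
  have h4 : HasDerivAt (fun τ : ℝ => 4 * ν * (τ + s₀)) (4 * ν) t := by
    refine (h1.const_mul (4 * ν)).congr_deriv ?_
    ring
  have h5 : (4 * ν * (t + s₀)) ≠ 0 := by positivity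
  refine (((h2.const_sub (Real.log s₀)).div_const 2).sub (h3.div h4 h5)).congr_deriv ?_
  field_simp
  ring

lemma KK_sqrt_hd (hν : 0 < ν) {t r Yt : ℝ} (ht : 0 < t + s₀) (hr : 0 < r) :
    HasDerivAt (fun r => KK ν s₀ y₀ t (√r + Yt))
      (-((√r + Yt + y₀) / (2 * ν * (t + s₀)) * KK ν s₀ y₀ t (√r + Yt) / (2 * √r))) r := by
  have hw : 0 < √r := Real.sqrt_pos.2 hr
  have h1 : HasDerivAt (fun r => √r + Yt) (1 / (2 * √r)) r :=
    (Real.hasDerivAt_sqrt hr.ne').add_const Yt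
  have h2 := (LL_hdy (y₀ := y₀) hν (y := √r + Yt) ht).exp.comp r h1
  unfold KK
  refine h2.congr_deriv ?_
  field_simp

lemma KK_second (hν : 0 < ν) {t r Yt : ℝ} (ht : 0 < t + s₀) (hr : 0 < r) :
    HasDerivAt (fun r => (√r + Yt + y₀) / (2 * ν * (t + s₀)) * KK ν s₀ y₀ t (√r + Yt) / (2 * √r))
      ((KK ν s₀ y₀ t (√r + Yt) / (2 * ν * (t + s₀))
        - ((√r + Yt + y₀) / (2 * ν * (t + s₀))) ^ 2 * KK ν s₀ y₀ t (√r + Yt)
        - (√r + Yt + y₀) / (2 * ν * (t + s₀)) * KK ν s₀ y₀ t (√r + Yt) / √r)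
        / (4 * r)) r := by
  have hw : 0 < √r := Real.sqrt_pos.2 hr
  have hs : HasDerivAt (fun r => √r) (1 / (2 * √r)) r := Real.hasDerivAt_sqrt hr.ne'
  have h1 : HasDerivAt (fun r => (√r + Yt + y₀) / (2 * ν * (t + s₀)))
      (1 / (2 * √r) / (2 * ν * (t + s₀))) r :=
    ((hs.add_const Yt).add_const y₀).div_const _
  have h2 := KK_sqrt_hd (y₀ := y₀) hν (Yt := Yt) ht hr
  have h3 : HasDerivAt (fun r => 2 * √r) (2 * (1 / (2 * √r))) r := hs.const_mul 2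
  have h4 : 2 * √r ≠ 0 := by positivity
  have h12 : HasDerivAt (fun r => (√r + Yt + y₀) / (2 * ν * (t + s₀)) * KK ν s₀ y₀ t (√r + Yt))
      (1 / (2 * √r) / (2 * ν * (t + s₀)) * KK ν s₀ y₀ t (√r + Yt)
        + (√r + Yt + y₀) / (2 * ν * (t + s₀))
          * (-((√r + Yt + y₀) / (2 * ν * (t + s₀)) * KK ν s₀ y₀ t (√r + Yt) / (2 * √r)))) r :=
    h1.mul h2
  refine (h12.div h3 h4).congr_deriv ?_
  obtain ⟨k, hk⟩ : ∃ k, k = KK ν s₀ y₀ t (√r + Yt) := ⟨_, rfl⟩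
  rw [← hk]
  obtain ⟨w, hw'⟩ : ∃ w, w = √r := ⟨_, rfl⟩
  have hr2 : r = w ^ 2 := by rw [hw', Real.sq_sqrt hr.le]
  rw [← hw'] at hw ⊢
  rw [hr2]
  field_simp
  ring

lemma bar_maj (hν : 0 < ν) (hy₀ : 0 < y₀) {Y : ℝ → ℝ} {g t σ η w : ℝ}
    (ht : 0 < t + s₀) (hσ : 0 < σ) (hY : HasDerivAt Y g t) (hYt : 0 ≤ Y t)
    (hw : -ν - g * √σ ≤ w) :
    ∃ χ χ₁ c₂ d ζ, Maj (fun t σ => 1 + η - KK ν s₀ y₀ t (√σ + Y t)) t σ χ χ₁ c₂ d ζ ∧
      4 * ν * σ * c₂ - 2 * w * χ₁ σ ≤ d := by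
  have hp : 0 < √σ := Real.sqrt_pos.2 hσ
  obtain ⟨k, hk⟩ : ∃ k, k = KK ν s₀ y₀ t (√σ + Y t) := ⟨_, rfl⟩
  have hk0 : 0 < k := by rw [hk]; exact KK_pos _ _
  refine ⟨fun r => 1 + η - KK ν s₀ y₀ t (√r + Y t),
    fun r => (√r + Y t + y₀) / (2 * ν * (t + s₀)) * KK ν s₀ y₀ t (√r + Y t) / (2 * √r),
    (KK ν s₀ y₀ t (√σ + Y t) / (2 * ν * (t + s₀))
        - ((√σ + Y t + y₀) / (2 * ν * (t + s₀))) ^ 2 * KK ν s₀ y₀ t (√σ + Y t)
        - (√σ + Y t + y₀) / (2 * ν * (t + s₀)) * KK ν s₀ y₀ t (√σ + Y t) / √σ)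
        / (4 * σ),
    -((-(1 / (2 * (t + s₀))) + (√σ + Y t + y₀) ^ 2 / (4 * ν * (t + s₀) ^ 2)
        - g * ((√σ + Y t + y₀) / (2 * ν * (t + s₀)))) * KK ν s₀ y₀ t (√σ + Y t)),
    fun τ => 1 + η - KK ν s₀ y₀ τ (√σ + Y τ), ⟨?_, ?_, ?_, ?_, rfl, ?_, rfl, ?_⟩, ?_⟩
  · have h1 : ContDiffAt ℝ 2 (fun r : ℝ => √r) σ := Real.contDiffAt_sqrt hσ.ne'
    unfold KK LL
    exact contDiffAt_const.sub ((contDiffAt_const.sub
      ((((h1.add contDiffAt_const).add contDiffAt_const).pow 2).div_const _)).exp)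
  · filter_upwards [lt_mem_nhds hσ] with r hr
    refine ((KK_sqrt_hd (y₀ := y₀) hν (Yt := Y t) ht hr).const_sub (1 + η)).congr_deriv ?_
    ring
  · exact KK_second hν ht hσ
  · exact Eventually.of_forall fun _ => le_rfl
  · exact Eventually.of_forall fun _ => le_rfl
  · refine ((LL_hd (y₀ := y₀) (w := √σ) hν ht hY).exp.const_sub (1 + η)).congr_deriv ?_
    unfold KK
    ring
  · simp only
    rw [← hk]
    obtain ⟨W, hW⟩ : ∃ W, W = √σ := ⟨_, rfl⟩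
    have hs2 : σ = W ^ 2 := by rw [hW, Real.sq_sqrt hσ.le]
    rw [← hW] at hp hw ⊢
    rw [hs2]
    obtain ⟨q, hq⟩ : ∃ q, q = W + Y t + y₀ := ⟨_, rfl⟩
    have hq0 : 0 < q := by rw [hq]; linarith
    rw [← hq]
    obtain ⟨P, hP⟩ : ∃ P, P = t + s₀ := ⟨_, rfl⟩
    rw [← hP] at ht ⊢
    have e : -((-(1 / (2 * P)) + q ^ 2 / (4 * ν * P ^ 2) - g * (q / (2 * ν * P))) * k)
        - (4 * ν * W ^ 2 * ((k / (2 * ν * P) - (q / (2 * ν * P)) ^ 2 * k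
          - q / (2 * ν * P) * k / W) / (4 * W ^ 2)) - 2 * w * (q / (2 * ν * P) * k / (2 * W)))
        = q * k / (2 * ν * P * W) * (ν + w + g * W) := by
      field_simp
      ring
    have h0 : 0 ≤ q * k / (2 * ν * P * W) * (ν + w + g * W) := by
      apply mul_nonneg (by positivity)
      linarith
    linarith

end

end Pool.Agent.NH62.AX
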