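import Mathlib

/-!
The function `√(4 κ ν s log log (1 / s))` (helper62).
-/

set_option autoImplicit false

open Set Filter Topology

namespace Pool.Agent.NH62.AX

/-- The modulus of the law of the iterated logarithm. -/
noncomputable def hh (κ ν s : ℝ) : ℝ := √(4 * κ * ν * s * Real.log (Real.log (1 / s)))

/-- Its derivative. -/
noncomputable def hh₁ (κ ν s : ℝ) : ℝ :=
  √(κ * ν) * (1 / √s) * (√(Real.log (Real.log (1 / s)))
    - 1 / (Real.log (1 / s) * √(Real.log (Real.log (1 / s)))))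

lemma L_gt {s : ℝ} (h0 : 0 < s) (h1 : s < Real.exp (-3)) : 3 < Real.log (1 / s) := by
  rw [one_div, Real.log_inv]
  have h2 := Real.log_lt_log h0 h1
  rw [Real.log_exp] at h2
  linarith

lemma l_gt {s : ℝ} (h0 : 0 < s) (h1 : s < Real.exp (-3)) : 1 < Real.log (Real.log (1 / s)) := by
  have h2 := L_gt h0 h1
  have h3 : Real.log (Real.exp 1) < Real.log (Real.log (1 / s)) := by
    apply Real.log_lt_log (Real.exp_pos 1)
    have := Real.exp_one_lt_d9
    linarith
  rwa [Real.log_exp] at h3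

lemma hh_eq {κ ν s : ℝ} (hκ : 0 < κ) (hν : 0 < ν) (hs : 0 < s) :
    hh κ ν s = 2 * √(κ * ν) * √s * √(Real.log (Real.log (1 / s))) := by
  unfold hh
  have e : 4 * κ * ν * s * Real.log (Real.log (1 / s))
      = 4 * ((κ * ν) * s) * Real.log (Real.log (1 / s)) := by ring
  have h4 : √(4 : ℝ) = 2 := by
    rw [show (4 : ℝ) = 2 ^ 2 by norm_num, Real.sqrt_sq (by norm_num)]
  rw [e, Real.sqrt_mul (show 0 ≤ 4 * ((κ * ν) * s) by positivity),
    Real.sqrt_mul (show (0 : ℝ) ≤ 4 by norm_num), Real.sqrt_mul (show 0 ≤ κ * ν by positivity), h4]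
  ring

lemma hh_hd {κ ν s : ℝ} (hκ : 0 < κ) (hν : 0 < ν) (h0 : 0 < s) (h1 : s < Real.exp (-3)) :
    HasDerivAt (hh κ ν) (hh₁ κ ν s) s := by
  have hL := L_gt h0 h1
  have hl := l_gt h0 h1
  have d1 : HasDerivAt (fun s : ℝ => Real.log (1 / s)) (-(1 / s)) s := by
    have h2 : HasDerivAt (fun s : ℝ => -Real.log s) (-(1 / s)) s := by
      have := (Real.hasDerivAt_log h0.ne').neg
      refine this.congr_deriv ?_
      rw [one_div]
    refine h2.congr_of_eventuallyEq (Eventually.of_forall fun r => ?_)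
    show Real.log (1 / r) = -Real.log r
    rw [one_div, Real.log_inv]
  have d2 : HasDerivAt (fun s : ℝ => Real.log (Real.log (1 / s)))
      (-(1 / s) / Real.log (1 / s)) s := d1.log (by linarith)
  have d3 := d2.sqrt (by linarith)
  have d4 : HasDerivAt (fun s : ℝ => √s) (1 / (2 * √s)) s := Real.hasDerivAt_sqrt h0.ne'
  have d5 : HasDerivAt (fun s : ℝ => 2 * √(κ * ν) * √s * √(Real.log (Real.log (1 / s))))
      (2 * √(κ * ν) * (1 / (2 * √s)) * √(Real.log (Real.log (1 / s)))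
        + 2 * √(κ * ν) * √s * (-(1 / s) / Real.log (1 / s)
          / (2 * √(Real.log (Real.log (1 / s)))))) s :=
    (d4.const_mul (2 * √(κ * ν))).mul d3
  have d6 : HasDerivAt (hh κ ν) (2 * √(κ * ν) * (1 / (2 * √s)) * √(Real.log (Real.log (1 / s)))
        + 2 * √(κ * ν) * √s * (-(1 / s) / Real.log (1 / s)
          / (2 * √(Real.log (Real.log (1 / s)))))) s := by
    refine d5.congr_of_eventuallyEq ?_
    filter_upwards [lt_mem_nhds h0] with r hr
    exact hh_eq hκ hν hr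
  refine d6.congr_deriv ?_
  unfold hh₁
  obtain ⟨w, hw⟩ : ∃ w, w = √s := ⟨_, rfl⟩
  have hw0 : 0 < w := by rw [hw]; exact Real.sqrt_pos.2 h0
  have hs2 : s = w ^ 2 := by rw [hw, Real.sq_sqrt h0.le]
  obtain ⟨q, hq⟩ : ∃ q, q = √(Real.log (Real.log (1 / s))) := ⟨_, rfl⟩
  have hq0 : 0 < q := by rw [hq]; exact Real.sqrt_pos.2 (by linarith)
  obtain ⟨P, hP⟩ : ∃ P, P = Real.log (1 / s) := ⟨_, rfl⟩
  have hP0 : 0 < P := by rw [hP]; linarith
  rw [← hq, ← hP, ← hw, hs2]
  field_simp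
  ring

lemma l_mono {s s' : ℝ} (h0 : 0 < s) (hss : s ≤ s') (h1 : s' < Real.exp (-3)) :
    Real.log (1 / s') ≤ Real.log (1 / s) ∧
      Real.log (Real.log (1 / s')) ≤ Real.log (Real.log (1 / s)) := by
  have h0' : 0 < s' := h0.trans_le hss
  have hL := L_gt h0' h1
  have h2 : Real.log (1 / s') ≤ Real.log (1 / s) := by
    apply Real.log_le_log (by positivity)
    exact one_div_le_one_div_of_le h0 hss
  exact ⟨h2, Real.log_le_log (by linarith) h2⟩

lemma hh₁_anti {κ ν s s' : ℝ} (h0 : 0 < s) (hss : s ≤ s') (h1 : s' < Real.exp (-3)) :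
    hh₁ κ ν s' ≤ hh₁ κ ν s := by
  have h0' : 0 < s' := h0.trans_le hss
  have hL := L_gt h0' h1
  have hl := l_gt h0' h1
  obtain ⟨m1, m2⟩ := l_mono h0 hss h1
  have hs' : 0 < √s' := Real.sqrt_pos.2 h0'
  have hs : 0 < √s := Real.sqrt_pos.2 h0
  have a1 : 1 / √s' ≤ 1 / √s := one_div_le_one_div_of_le hs (Real.sqrt_le_sqrt hss)
  have a2 : √(Real.log (Real.log (1 / s'))) ≤ √(Real.log (Real.log (1 / s))) :=
    Real.sqrt_le_sqrt m2
  have a3 : 1 ≤ √(Real.log (Real.log (1 / s'))) := Real.one_le_sqrt.2 hl.le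
  have a4 : 1 / (Real.log (1 / s) * √(Real.log (Real.log (1 / s))))
      ≤ 1 / (Real.log (1 / s') * √(Real.log (Real.log (1 / s')))) := by
    apply one_div_le_one_div_of_le (by positivity)
    apply mul_le_mul m1 a2 (by positivity) (by linarith)
  have a5 : 1 / (Real.log (1 / s') * √(Real.log (Real.log (1 / s')))) ≤ 1 := by
    rw [div_le_one (by positivity)]
    nlinarith
  unfold hh₁
  apply mul_le_mul _ _ (by linarith) (by positivity)
  · exact mul_le_mul_of_nonneg_left a1 (Real.sqrt_nonneg _)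
  · linarith

lemma hh₁_nonneg {κ ν s : ℝ} (h0 : 0 < s) (h1 : s < Real.exp (-3)) : 0 ≤ hh₁ κ ν s := by
  have hL := L_gt h0 h1
  have hl := l_gt h0 h1
  have a3 : 1 ≤ √(Real.log (Real.log (1 / s))) := Real.one_le_sqrt.2 hl.le
  have a5 : 1 / (Real.log (1 / s) * √(Real.log (Real.log (1 / s)))) ≤ 1 := by
    rw [div_le_one (by positivity)]
    nlinarith
  unfold hh₁
  apply mul_nonneg (by positivity)
  linarith

lemma hh_sub {κ ν a d : ℝ} (hκ : 0 < κ) (hν : 0 < ν) (ha : 0 < a) (hd : 0 < d)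
    (h1 : a + d < Real.exp (-3)) : hh κ ν (a + d) - hh κ ν a ≤ hh κ ν d := by
  have hanti : AntitoneOn (fun b => hh κ ν (b + d) - hh κ ν b) (Ioc 0 a) := by
    have hdv : ∀ b ∈ Ioc 0 a, HasDerivAt (fun b => hh κ ν (b + d) - hh κ ν b)
        (hh₁ κ ν (b + d) - hh₁ κ ν b) b := by
      intro b hb
      have e1 := hh_hd hκ hν (show 0 < b + d by linarith [hb.1]) (by linarith [hb.2])
      have e2 := hh_hd hκ hν hb.1 (by linarith [hb.2])
      have e3 : HasDerivAt (fun b : ℝ => b + d) 1 b := (hasDerivAt_id b).add_const d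
      have e5 : HasDerivAt (fun b => hh κ ν (b + d)) (hh₁ κ ν (b + d) * 1) b :=
        HasDerivAt.comp (h₂ := hh κ ν) (h := fun b => b + d) b e1 e3
      have e4 : HasDerivAt (fun b => hh κ ν (b + d) - hh κ ν b)
          (hh₁ κ ν (b + d) * 1 - hh₁ κ ν b) b := e5.sub e2
      rw [mul_one] at e4
      exact e4
    apply antitoneOn_of_deriv_nonpos (convex_Ioc 0 a)
    · exact fun b hb => (hdv b hb).continuousAt.continuousWithinAt
    · rw [interior_Ioc]
      exact fun b hb => (hdv b (Ioo_subset_Ioc_self hb)).differentiableAt.differentiableWithinAt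
    · rw [interior_Ioc]
      intro b hb
      rw [(hdv b (Ioo_subset_Ioc_self hb)).deriv]
      have := hh₁_anti (κ := κ) (ν := ν) hb.1 (show b ≤ b + d by linarith) (by linarith [hb.2])
      linarith
  have hc : Tendsto (fun b => hh κ ν (b + d)) (𝓝[>] 0) (𝓝 (hh κ ν d)) := by
    have h2 := (hh_hd hκ hν hd (by linarith)).continuousAt
    have h3 : Tendsto (fun b : ℝ => b + d) (𝓝[>] 0) (𝓝 d) := by
      have h4 : Tendsto (fun b : ℝ => b + d) (𝓝 0) (𝓝 (0 + d)) :=
        (continuous_id.add continuous_const).tendsto 0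
      rw [zero_add] at h4
      exact h4.mono_left nhdsWithin_le_nhds
    exact h2.tendsto.comp h3
  refine ge_of_tendsto hc ?_
  filter_upwards [Ioo_mem_nhdsGT ha] with b hb
  have h2 := hanti ⟨hb.1, hb.2.le⟩ ⟨ha, le_rfl⟩ hb.2.le
  have h3 : 0 ≤ hh κ ν b := Real.sqrt_nonneg _
  simp only at h2
  linarith

/-- The explicit rate is at most the derivative, for a larger constant. -/
lemma hh₁_big {κ κ₁ ν : ℝ} (hκ : 0 < κ) (hκκ : κ < κ₁) :
    ∃ s₀, 0 < s₀ ∧ s₀ < Real.exp (-3) ∧ ∀ s, 0 < s → s < s₀ →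
      √(κ * ν * Real.log (Real.log (1 / s)) / s) ≤ hh₁ κ₁ ν s := by
  have hκ₁ : 0 < κ₁ := hκ.trans hκκ
  have hlt : √κ < √κ₁ := Real.sqrt_lt_sqrt hκ.le hκκ
  have hk0 : 0 < √κ₁ := Real.sqrt_pos.2 hκ₁
  obtain ⟨X, hX⟩ : ∃ X, X = √κ₁ / (√κ₁ - √κ) + 4 := ⟨_, rfl⟩
  have hd : 0 < √κ₁ - √κ := by linarith
  have hXp : 4 ≤ X := by
    have : 0 < √κ₁ / (√κ₁ - √κ) := by positivity
    linarith
  refine ⟨Real.exp (-X), Real.exp_pos _, Real.exp_lt_exp.2 (by linarith), ?_⟩
  intro s h0 hs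
  have h1 : s < Real.exp (-3) := hs.trans (Real.exp_lt_exp.2 (by linarith))
  have hL := L_gt h0 h1
  have hl := l_gt h0 h1
  have hLX : X < Real.log (1 / s) := by
    rw [one_div, Real.log_inv]
    have h2 := Real.log_lt_log h0 hs
    rw [Real.log_exp] at h2
    linarith
  obtain ⟨l, hl'⟩ : ∃ l, l = Real.log (Real.log (1 / s)) := ⟨_, rfl⟩
  obtain ⟨P, hP⟩ : ∃ P, P = Real.log (1 / s) := ⟨_, rfl⟩
  have e1 : √(κ * ν * Real.log (Real.log (1 / s)) / s) ≤ √κ * (√ν * (1 / √s) * √l) := by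
    rcases le_total 0 ν with hν | hν
    · rw [← hl', Real.sqrt_div (mul_nonneg (mul_nonneg hκ.le hν) (by linarith)),
        Real.sqrt_mul (mul_nonneg hκ.le hν), Real.sqrt_mul hκ.le]
      apply le_of_eq
      ring
    · have h2 : κ * ν * Real.log (Real.log (1 / s)) / s ≤ 0 := by
        apply div_nonpos_of_nonpos_of_nonneg _ h0.le
        apply mul_nonpos_of_nonpos_of_nonneg _ (by linarith)
        exact mul_nonpos_of_nonneg_of_nonpos hκ.le hν
      rw [Real.sqrt_eq_zero_of_nonpos h2]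
      positivity
  refine e1.trans ?_
  unfold hh₁
  rw [Real.sqrt_mul hκ₁.le, ← hl', ← hP]
  have hl0 : 1 < l := by rw [hl']; exact hl
  have hP0 : X < P := by rw [hP]; exact hLX
  have hq : 0 < √l := Real.sqrt_pos.2 (by linarith)
  have hql : √l * √l = l := Real.mul_self_sqrt (by linarith)
  have e2 : √κ * √l ≤ √κ₁ * (√l - 1 / (P * √l)) := by
    have h3 : 1 / (P * √l) = 1 / (P * l) * √l := by
      have hP1 : 0 < P := by linarith
      rw [← hql]
      field_simp
      rw [Real.sqrt_sq hq.le]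
    rw [h3]
    have h4 : √κ₁ * (1 / (P * l)) ≤ √κ₁ - √κ := by
      have h5 : √κ₁ / (√κ₁ - √κ) ≤ P * l := by
        have h6 : √κ₁ / (√κ₁ - √κ) ≤ P := by linarith
        have h7 : 0 < P := by linarith
        nlinarith
      rw [div_le_iff₀ hd] at h5
      have h8 : 0 < P * l := mul_pos (by linarith) (by linarith)
      rw [mul_one_div, div_le_iff₀ h8]
      linarith
    nlinarith
  have h9 : 0 ≤ √ν * (1 / √s) := by positivity
  have := mul_le_mul_of_nonneg_left e2 h9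
  calc √κ * (√ν * (1 / √s) * √l) = √ν * (1 / √s) * (√κ * √l) := by ring
    _ ≤ √ν * (1 / √s) * (√κ₁ * (√l - 1 / (P * √l))) := this
    _ = _ := by ring

end Pool.Agent.NH62.AX
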