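import Mathlib

/-!
Slowly decreasing functions (helper62).
-/

set_option autoImplicit false

open Set Filter Topology

namespace Pool.Agent.NH62.AX

lemma slow_pow {κ' a K : ℝ} (hκ' : κ' < 1) (ha : 0 < a) (hK : 0 < K) :
    (∀ x, 0 < x → 0 < K * x ^ (-a)) ∧ AntitoneOn (fun x : ℝ => K * x ^ (-a)) (Ioi 0) ∧
      ∀ᶠ x : ℝ in atTop, (1 - x ^ (-κ')) * (K * x ^ (-a)) ≤ K * (x + 1) ^ (-a) := by
  refine ⟨fun x hx => by positivity, ?_, ?_⟩
  · intro x hx y _ hxy
    exact mul_le_mul_of_nonneg_left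
      (Real.rpow_le_rpow_of_nonpos hx hxy (by linarith)) hK.le
  · have t : Tendsto (fun x : ℝ => a * x ^ (-(1 - κ'))) atTop (𝓝 0) := by
      have := (tendsto_rpow_neg_atTop (show 0 < 1 - κ' by linarith)).const_mul a
      simpa using this
    filter_upwards [eventually_gt_atTop 0, t.eventually (gt_mem_nhds one_pos)] with x hx h1
    have h2 : a / x ≤ x ^ (-κ') := by
      have e' : a / x = a * x ^ (-(1 - κ')) * x ^ (-κ') := by
        rw [mul_assoc, ← Real.rpow_add hx, show -(1 - κ') + -κ' = (-1 : ℝ) by ring,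
          Real.rpow_neg_one, div_eq_mul_inv]
      rw [e']
      have h3 : 0 < x ^ (-κ') := Real.rpow_pos_of_pos hx _
      nlinarith
    have h3 : (1 - a / x) * x ^ (-a) ≤ (x + 1) ^ (-a) := by
      have e : (x + 1) ^ (-a) = x ^ (-a) * (1 + 1 / x) ^ (-a) := by
        rw [← Real.mul_rpow hx.le (by positivity)]
        congr 1
        field_simp
      rw [e, mul_comm]
      apply mul_le_mul_of_nonneg_left _ (Real.rpow_nonneg hx.le _)
      have h4 : (1 + 1 / x) ^ (-a) = Real.exp (-(a * Real.log (1 + 1 / x))) := by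
        rw [Real.rpow_def_of_pos (by positivity)]
        congr 1
        ring
      rw [h4]
      have h5 := Real.add_one_le_exp (-(a * Real.log (1 + 1 / x)))
      have h6 : Real.log (1 + 1 / x) ≤ 1 / x := by
        have := Real.log_le_sub_one_of_pos (show 0 < 1 + 1 / x by positivity)
        linarith
      have h7 : a * Real.log (1 + 1 / x) ≤ a * (1 / x) := mul_le_mul_of_nonneg_left h6 ha.le
      rw [mul_one_div] at h7
      linarith
    have h4 : 0 < x ^ (-a) := Real.rpow_pos_of_pos hx _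
    calc (1 - x ^ (-κ')) * (K * x ^ (-a)) = K * ((1 - x ^ (-κ')) * x ^ (-a)) := by ring
      _ ≤ K * ((1 - a / x) * x ^ (-a)) := by
        apply mul_le_mul_of_nonneg_left _ hK.le
        apply mul_le_mul_of_nonneg_right _ h4.le
        linarith
      _ ≤ _ := mul_le_mul_of_nonneg_left h3 hK.le

lemma slow_exp {κ' b : ℝ} (hb : 0 < b) (hb1 : b < 1 - κ') (hκ' : 0 < κ') :
    (∀ x : ℝ, 0 < x → 0 < Real.exp (-x ^ b)) ∧
      AntitoneOn (fun x : ℝ => Real.exp (-x ^ b)) (Ioi 0) ∧
      ∀ᶠ x : ℝ in atTop, (1 - x ^ (-κ')) * Real.exp (-x ^ b) ≤ Real.exp (-(x + 1) ^ b) := by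
  refine ⟨fun x _ => Real.exp_pos _, ?_, ?_⟩
  · intro x hx y _ hxy
    apply Real.exp_le_exp.2
    have : x ^ b ≤ y ^ b := Real.rpow_le_rpow (le_of_lt hx) hxy hb.le
    linarith
  · have t : Tendsto (fun x : ℝ => b * x ^ (-(1 - κ' - b))) atTop (𝓝 0) := by
      have := (tendsto_rpow_neg_atTop (show 0 < 1 - κ' - b by linarith)).const_mul b
      simpa using this
    filter_upwards [eventually_gt_atTop 0, t.eventually (gt_mem_nhds one_pos)] with x hx h1
    have h2 : b * x ^ (b - 1) ≤ x ^ (-κ') := by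
      have e' : b * x ^ (b - 1) = b * x ^ (-(1 - κ' - b)) * x ^ (-κ') := by
        rw [mul_assoc, ← Real.rpow_add hx]
        congr 2
        ring
      rw [e']
      have h3 : 0 < x ^ (-κ') := Real.rpow_pos_of_pos hx _
      nlinarith
    have h3 : (x + 1) ^ b ≤ x ^ b + b * x ^ (b - 1) := by
      have e : (x + 1) ^ b = x ^ b * (1 + 1 / x) ^ b := by
        rw [← Real.mul_rpow hx.le (by positivity)]
        congr 1
        field_simp
      have h4 : (1 + 1 / x) ^ b ≤ 1 + b * (1 / x) :=
        rpow_one_add_le_one_add_mul_self (by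
          have : 0 < 1 / x := by positivity
          linarith) hb.le (by linarith)
      have h5 : x ^ (b - 1) = x ^ b * (1 / x) := by
        rw [Real.rpow_sub hx, Real.rpow_one]
        ring
      rw [e, h5]
      have h6 : 0 < x ^ b := Real.rpow_pos_of_pos hx _
      nlinarith
    have h4 := Real.add_one_le_exp (-(b * x ^ (b - 1)))
    calc (1 - x ^ (-κ')) * Real.exp (-x ^ b) ≤ Real.exp (-(b * x ^ (b - 1))) * Real.exp (-x ^ b) := by
          apply mul_le_mul_of_nonneg_right _ (Real.exp_pos _).le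
          linarith
      _ = Real.exp (-(b * x ^ (b - 1)) + -x ^ b) := by rw [Real.exp_add]
      _ ≤ _ := by
        apply Real.exp_le_exp.2
        linarith

end Pool.Agent.NH62.AX
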