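import Pool.Agent.NH62.AX.Anc
import Pool.Agent.NH62.AX.Lil
import Pool.Agent.NH62.AX.Slow

/-!
Axisymmetric flows: the final forms (helper62).
-/

set_option autoImplicit false

open MeasureTheory Set Metric Filter Topology
open scoped ContDiff

namespace Pool.Agent.NH62.AX

open H459R3.NS W221.NS Pool.Agent.TH305.DR Pool.Agent.TH305.AX

variable {ν T : ℝ} {u : ℝ → V → V} {p : ℝ → V → ℝ}

/-- The result for the points near the axis, or near a point of the axis. -/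
theorem fin1 {t₁ t₂ κ κ' c z₀ r₀ s₁ M₀ : ℝ} (hν : 0 < ν) (h : BSol ν T u p)
    (hc : c = 0 ∨ c = 1) (ht1 : 0 ≤ t₁) (ht12 : t₁ < t₂) (hκ : 0 < κ)
    (hκκ' : κ < κ') (hκ1 : κ < 1) (hr₀ : 0 < r₀) (hr₁ : r₀ ≤ 1) (hs₁ : 0 < s₁) {φ : ℝ → ℝ}
    (hpos : ∀ x, 0 < x → 0 < φ x) (hanti : AntitoneOn φ (Ioi 0))
    (hφ : ∀ᶠ x in atTop, (1 - x ^ (-κ')) * φ x ≤ φ (x + 1))
    (hbd : ∀ t ∈ Ioo t₁ T, ∀ x, rc c z₀ x < r₀ → |circ (u t) x| ≤ M₀)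
    {G g : ℝ → ℝ} (hG : ∀ t ∈ Ioo t₁ T, HasDerivAt G (g t) t) (hg : ∀ t ∈ Ioo t₁ T, 0 ≤ g t)
    (hmod : ∀ t ∈ Ioo t₁ T, ∀ t' ∈ Ioo t₁ T, t < t' → t' - t < s₁ →
      G t' - G t ≤ √(4 * κ * ν * (t' - t) * Real.log (Real.log (1 / (t' - t)))))
    {J B : ℝ → ℝ} (hJ : ∀ t ∈ Ioo t₁ T, HasDerivAt J (B t) t) (hB : ∀ t ∈ Ioo t₁ T, 0 ≤ B t)
    (hJu : UniformContinuousOn J (Ioo t₁ T))
    (hcond : ∀ t ∈ Ioo t₁ T, ∀ x, 0 < √(sg x) → rc c z₀ x < r₀ →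
      φ |Real.log (rc c z₀ x)| < |circ (u t) x| →
      -ν - g t * √(sg x) - B t * √(sg x) ^ 2 ≤ x 0 * u t x 0 + x 1 * u t x 1 ∧
      (c = 1 → -(g t * |x 2 - z₀|) - B t * |x 2 - z₀| ^ 2 ≤ (x 2 - z₀) * u t x 2)) :
    ∃ A : ℝ, ∀ t ∈ Ico t₂ T, ∀ x, 0 < rc c z₀ x →
      rc c z₀ x < r₀ → |circ (u t) x| ≤ A * φ |Real.log (rc c z₀ x)| := by
  have habs : ∀ x : V, 0 < rc c z₀ x → rc c z₀ x < r₀ →
      |Real.log (rc c z₀ x)| = -Real.log (rc c z₀ x) := fun x h0 h1 =>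
    abs_of_nonpos (Real.log_nonpos h0.le (h1.le.trans hr₁))
  obtain ⟨A, r₁, a1, a2, a3, H⟩ := iter hν h hc ht1 ht12 hκ hκκ' hκ1 hr₀ hs₁ hpos hanti hφ hbd hG hg
    hmod hJ hB hJu (fun t ht x h0 h1 h2 => hcond t ht x h0 h1 (by
      rw [habs x (lt_of_lt_of_le h0 (le_max_left _ _)) h1]
      exact h2))
  have hr1' : 0 < -Real.log r₁ := by
    have := Real.log_neg a1 a3
    linarith
  have hφ1 := hpos _ hr1'
  refine ⟨max A (|M₀| / φ (-Real.log r₁)), fun t ht x h0 h1 => ?_⟩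
  rw [habs x h0 h1]
  have hx1 : 0 < -Real.log (rc c z₀ x) := by
    have := Real.log_neg h0 (h1.trans_le hr₁)
    linarith
  have hφx := hpos _ hx1
  rcases le_or_gt (rc c z₀ x) r₁ with h2 | h2
  · refine (H t ht x h0 h2).trans ?_
    exact mul_le_mul_of_nonneg_right (le_max_left _ _) hφx.le
  · have h3 : φ (-Real.log r₁) ≤ φ (-Real.log (rc c z₀ x)) := by
      apply hanti hx1 hr1'
      have := Real.log_le_log a1 h2.le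
      linarith
    calc |circ (u t) x| ≤ |M₀| := (hbd t ⟨ht12.trans_le ht.1, ht.2⟩ x h1).trans (le_abs_self _)
      _ = |M₀| / φ (-Real.log r₁) * φ (-Real.log r₁) := by field_simp
      _ ≤ |M₀| / φ (-Real.log r₁) * φ (-Real.log (rc c z₀ x)) := by gcongr
      _ ≤ _ := mul_le_mul_of_nonneg_right (le_max_right _ _) hφx.le

/-- The explicit rate. -/
theorem fin2 {t₁ κ κ' c z₀ r₀ M₀ : ℝ} (hν : 0 < ν) (h : BSol ν T u p)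
    (hc : c = 0 ∨ c = 1) (ht1 : 0 ≤ t₁) (ht1T : t₁ < T) (hκ : 0 < κ)
    (hκκ' : κ < κ') (hκ1 : κ < 1) (hr₀ : 0 < r₀) (hr₁ : r₀ ≤ 1) {φ : ℝ → ℝ}
    (hpos : ∀ x, 0 < x → 0 < φ x) (hanti : AntitoneOn φ (Ioi 0))
    (hφ : ∀ᶠ x in atTop, (1 - x ^ (-κ')) * φ x ≤ φ (x + 1))
    (hbd : ∀ t ∈ Ioo t₁ T, ∀ x, rc c z₀ x < r₀ → |circ (u t) x| ≤ M₀)
    {J B : ℝ → ℝ} (hJ : ∀ t ∈ Ioo t₁ T, HasDerivAt J (B t) t) (hB : ∀ t ∈ Ioo t₁ T, 0 ≤ B t)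
    (hJu : UniformContinuousOn J (Ioo t₁ T))
    (hcond : ∀ t ∈ Ioo t₁ T, ∀ x, 0 < √(sg x) → rc c z₀ x < r₀ →
      φ |Real.log (rc c z₀ x)| < |circ (u t) x| →
      -ν - √(κ * ν * Real.log (Real.log (1 / (T - t))) / (T - t)) * √(sg x)
        - B t * √(sg x) ^ 2 ≤ x 0 * u t x 0 + x 1 * u t x 1 ∧
      (c = 1 → -(√(κ * ν * Real.log (Real.log (1 / (T - t))) / (T - t)) * |x 2 - z₀|)
        - B t * |x 2 - z₀| ^ 2 ≤ (x 2 - z₀) * u t x 2)) :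
    ∃ A : ℝ, ∃ t₂ < T, ∀ t ∈ Ico t₂ T, ∀ x, 0 < rc c z₀ x →
      rc c z₀ x < r₀ → |circ (u t) x| ≤ A * φ |Real.log (rc c z₀ x)| := by
  obtain ⟨κ₁, hκ₁⟩ : ∃ κ₁, κ₁ = (κ + min κ' 1) / 2 := ⟨_, rfl⟩
  have hmin : κ < min κ' 1 := lt_min hκκ' hκ1
  have k1 : κ < κ₁ := by rw [hκ₁]; linarith
  have k2 : κ₁ < κ' := by
    have := min_le_left κ' 1
    rw [hκ₁]; linarith
  have k3 : κ₁ < 1 := by
    have := min_le_right κ' 1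
    rw [hκ₁]; linarith
  have hκ₁0 : 0 < κ₁ := hκ.trans k1
  obtain ⟨s₀, hs0, hs1, hs2⟩ := hh₁_big (ν := ν) hκ k1
  obtain ⟨t₃, ht₃⟩ : ∃ t₃, t₃ = max t₁ (T - s₀) := ⟨_, rfl⟩
  have h31 : t₁ ≤ t₃ := by rw [ht₃]; exact le_max_left _ _
  have h32 : T - s₀ ≤ t₃ := by rw [ht₃]; exact le_max_right _ _
  have h3T : t₃ < T := by rw [ht₃]; exact max_lt ht1T (by linarith)
  obtain ⟨t₂, ht₂⟩ : ∃ t₂, t₂ = (t₃ + T) / 2 := ⟨_, rfl⟩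
  have hsub : Ioo t₃ T ⊆ Ioo t₁ T := Ioo_subset_Ioo_left h31
  have hrange : ∀ t ∈ Ioo t₃ T, 0 < T - t ∧ T - t < s₀ := fun t ht =>
    ⟨by linarith [ht.2], by linarith [ht.1]⟩
  obtain ⟨A, hA⟩ := fin1 (t₁ := t₃) (t₂ := t₂) (s₁ := s₀) (κ := κ₁) (κ' := κ') (c := c) (z₀ := z₀)
    (φ := φ) (M₀ := M₀) (G := fun t => -hh κ₁ ν (T - t)) (g := fun t => hh₁ κ₁ ν (T - t))
    (J := J) (B := B) hν h hc (ht1.trans h31) (by rw [ht₂]; linarith) hκ₁0 k2 k3 hr₀ hr₁ hs0 hpos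
    hanti hφ (fun t ht => hbd t (hsub ht))
    (fun t ht => by
      obtain ⟨q1, q2⟩ := hrange t ht
      have e1 := hh_hd hκ₁0 hν q1 (q2.trans hs1)
      have e2 : HasDerivAt (fun t : ℝ => T - t) (-1) t := (hasDerivAt_id t).const_sub T
      have e3 : HasDerivAt (fun t => hh κ₁ ν (T - t)) (hh₁ κ₁ ν (T - t) * -1) t :=
        HasDerivAt.comp (h₂ := hh κ₁ ν) (h := fun t => T - t) t e1 e2
      exact e3.neg.congr_deriv (by ring))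
    (fun t ht => by
      obtain ⟨q1, q2⟩ := hrange t ht
      exact hh₁_nonneg q1 (q2.trans hs1))
    (fun t ht t' ht' htt _ => by
      obtain ⟨q1, q2⟩ := hrange t ht
      obtain ⟨q1', q2'⟩ := hrange t' ht'
      have e1 := hh_sub (a := T - t') (d := t' - t) hκ₁0 hν q1' (by linarith) (by linarith)
      have e2 : T - t' + (t' - t) = T - t := by ring
      rw [e2] at e1
      show -hh κ₁ ν (T - t') - -hh κ₁ ν (T - t) ≤ hh κ₁ ν (t' - t)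
      linarith)
    (fun t ht => hJ t (hsub ht)) (fun t ht => hB t (hsub ht)) (hJu.mono hsub)
    (fun t ht x h0 h1 h2 => by
      obtain ⟨q1, q2⟩ := hrange t ht
      have e1 := hs2 _ q1 q2
      obtain ⟨c1, c2⟩ := hcond t (hsub ht) x h0 h1 h2
      refine ⟨?_, fun hc1 => ?_⟩
      · have e2 := mul_le_mul_of_nonneg_right e1 h0.le
        linarith
      · have e2 := mul_le_mul_of_nonneg_right e1 (abs_nonneg (x 2 - z₀))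
        have e3 := c2 hc1
        linarith)
  exact ⟨A, t₂, by rw [ht₂]; linarith, hA⟩

end Pool.Agent.NH62.AX
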