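import Mathlib

/-!
Elementary asymptotics for the scales `exp (-L)` (helper62).
-/

set_option autoImplicit false

open Set Filter Topology

namespace Pool.Agent.NH62.AX

/-- Minus the logarithm of the radius at the time scale `exp (-L)`. -/
noncomputable def xx (ν L : ℝ) : ℝ := -Real.log (4 * √(4 * ν * Real.exp (-L) * Real.log L))

/-- The decay at the scale `exp (-L)`. -/
noncomputable def dd (κ₁ ε L : ℝ) : ℝ :=
  ε / 2 * Real.exp (-(κ₁ * Real.log L)) - Real.exp (-Real.log L) - 2 * Real.exp (-(4 * Real.log L))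

lemma xx_eq {ν L : ℝ} (hν : 0 < ν) (hL : 1 < L) :
    xx ν L = L / 2 - Real.log 4 - Real.log (4 * ν) / 2 - Real.log (Real.log L) / 2 := by
  have hl : 0 < Real.log L := Real.log_pos hL
  unfold xx
  rw [Real.log_mul (by norm_num) (Real.sqrt_pos.2 (by positivity)).ne', Real.log_sqrt (by positivity),
    Real.log_mul (by positivity) hl.ne', Real.log_mul (by positivity) (Real.exp_pos _).ne',
    Real.log_exp]
  ring

lemma xx_step {ν L Λ : ℝ} (hν : 0 < ν) (hL : 1 < L) (hΛ : 0 < Λ) :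
    xx ν (L + Λ) ≤ xx ν L + Λ / 2 := by
  rw [xx_eq hν hL, xx_eq hν (by linarith)]
  have hl : 0 < Real.log L := Real.log_pos hL
  have h1 : Real.log (Real.log L) ≤ Real.log (Real.log (L + Λ)) :=
    Real.log_le_log hl (Real.log_le_log (by linarith) (by linarith))
  linarith

lemma xx_big {ν : ℝ} (hν : 0 < ν) : ∀ᶠ L in atTop, L / 4 ≤ xx ν L := by
  filter_upwards [eventually_gt_atTop 1, eventually_ge_atTop (512 * ν)] with L h1 h2
  have hl : 0 < Real.log L := Real.log_pos h1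
  unfold xx
  rw [le_neg]
  have h3 : 4 * √(4 * ν * Real.exp (-L) * Real.log L) ≤ Real.exp (-(L / 4)) := by
    have e : 4 * √(4 * ν * Real.exp (-L) * Real.log L)
        = √(16 * (4 * ν * Real.exp (-L) * Real.log L)) := by
      have h16 : √(16 : ℝ) = 4 := by
        rw [show (16 : ℝ) = 4 ^ 2 by norm_num, Real.sqrt_sq (by norm_num)]
      rw [Real.sqrt_mul (show (0 : ℝ) ≤ 16 by norm_num) (4 * ν * Real.exp (-L) * Real.log L), h16]
    rw [e]
    apply Real.sqrt_le_iff.2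
    refine ⟨(Real.exp_pos _).le, ?_⟩
    have h4 : Real.exp (-(L / 4)) ^ 2 = Real.exp (-L) * Real.exp (L / 2) := by
      rw [← Real.exp_nat_mul, ← Real.exp_add]
      congr 1
      push_cast
      ring
    rw [h4]
    have h5 : Real.log L ≤ L := Real.log_le_self (by linarith)
    have h6 : L ^ 2 / 8 ≤ Real.exp (L / 2) := by
      have := Real.quadratic_le_exp_of_nonneg (x := L / 2) (by linarith)
      nlinarith
    have h7 : 64 * ν * Real.log L ≤ Real.exp (L / 2) := by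
      refine le_trans ?_ h6
      have h8 : 64 * ν * Real.log L ≤ 64 * ν * L := by gcongr
      nlinarith
    calc 16 * (4 * ν * Real.exp (-L) * Real.log L)
        = Real.exp (-L) * (64 * ν * Real.log L) := by ring
      _ ≤ Real.exp (-L) * Real.exp (L / 2) := by gcongr
  have h9 : 0 < 4 * √(4 * ν * Real.exp (-L) * Real.log L) := by
    have : 0 < √(4 * ν * Real.exp (-L) * Real.log L) := Real.sqrt_pos.2 (by positivity)
    positivity
  have h10 := Real.log_le_log h9 h3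
  rw [Real.log_exp] at h10
  linarith

lemma log_dbl {Λ : ℝ} (hΛ : 0 < Λ) : ∀ᶠ L in atTop, Real.log (L + Λ) ≤ 2 * Real.log L := by
  filter_upwards [eventually_gt_atTop 1, eventually_ge_atTop (1 + Λ)] with L h1 h2
  have e : 2 * Real.log L = Real.log (L ^ 2) := by
    rw [Real.log_pow]
    push_cast
    ring
  rw [e]
  apply Real.log_le_log (by linarith)
  nlinarith

lemma dd_big {κ₁ κ' ε m : ℝ} (h1 : κ₁ < 1) (h2 : κ₁ < κ') (hε : 0 < ε) : ∀ᶠ L in atTop, m * (L / 4) ^ (-κ') ≤ dd κ₁ ε L := by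
  have t1 : Tendsto (fun L : ℝ => m * (4 : ℝ) ^ κ' * L ^ (-(κ' - κ₁))) atTop (𝓝 0) := by
    have := (tendsto_rpow_neg_atTop (show 0 < κ' - κ₁ by linarith)).const_mul (m * (4 : ℝ) ^ κ')
    simpa using this
  have t2 : Tendsto (fun L : ℝ => L ^ (-(1 - κ₁))) atTop (𝓝 0) :=
    tendsto_rpow_neg_atTop (by linarith)
  have t3 : Tendsto (fun L : ℝ => 2 * L ^ (-(4 - κ₁))) atTop (𝓝 0) := by
    have := (tendsto_rpow_neg_atTop (show 0 < 4 - κ₁ by linarith)).const_mul 2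
    simpa using this
  have t := (t1.add t2).add t3
  rw [add_zero, add_zero] at t
  filter_upwards [eventually_gt_atTop 0, t.eventually (gt_mem_nhds (show 0 < ε / 2 by positivity))]
    with L hL ht
  have e1 : Real.exp (-(κ₁ * Real.log L)) = L ^ (-κ₁) := by
    rw [Real.rpow_def_of_pos hL]
    congr 1
    ring
  have e2 : Real.exp (-Real.log L) = L ^ (-(1 - κ₁)) * L ^ (-κ₁) := by
    rw [← Real.rpow_add hL, Real.rpow_def_of_pos hL]
    congr 1
    ring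
  have e3 : Real.exp (-(4 * Real.log L)) = L ^ (-(4 - κ₁)) * L ^ (-κ₁) := by
    rw [← Real.rpow_add hL, Real.rpow_def_of_pos hL]
    congr 1
    ring
  have e4 : (L / 4) ^ (-κ') = (4 : ℝ) ^ κ' * L ^ (-(κ' - κ₁)) * L ^ (-κ₁) := by
    rw [Real.div_rpow hL.le (by norm_num), Real.rpow_neg (by norm_num : (0 : ℝ) ≤ 4), div_inv_eq_mul,
      mul_comm, mul_assoc, ← Real.rpow_add hL]
    congr 2
    ring
  unfold dd
  rw [e1, e2, e3, e4]
  have hp : 0 < L ^ (-κ₁) := Real.rpow_pos_of_pos hL _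
  have := mul_le_mul_of_nonneg_right ht.le hp.le
  linarith

lemma phi_iter {φ : ℝ → ℝ} {κ' X : ℝ} (hκ' : 0 < κ') (hX : 1 ≤ X) (hpos : ∀ x, 0 < x → 0 < φ x)
    (h : ∀ x, X ≤ x → (1 - x ^ (-κ')) * φ x ≤ φ (x + 1)) (n : ℕ) {x : ℝ} (hx : X ≤ x) :
    (1 - n * x ^ (-κ')) * φ x ≤ φ (x + n) := by
  have hx0 : 0 < x := by linarith
  have hq : x ^ (-κ') ≤ 1 := by
    apply Real.rpow_le_one_of_one_le_of_nonpos (by linarith) (by linarith)
  have hq0 : 0 ≤ x ^ (-κ') := Real.rpow_nonneg hx0.le _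
  have hφ := hpos x hx0
  have key : (1 - x ^ (-κ')) ^ n * φ x ≤ φ (x + n) := by
    induction n with
    | zero => simp
    | succ n ih =>
      have h1 := h (x + n) (by have : (0 : ℝ) ≤ n := n.cast_nonneg; linarith)
      have h2 : (x + n) ^ (-κ') ≤ x ^ (-κ') := by
        apply Real.rpow_le_rpow_of_nonpos hx0 _ (by linarith)
        have : (0 : ℝ) ≤ n := n.cast_nonneg
        linarith
      have h3 : 0 < φ (x + n) := hpos _ (by have : (0 : ℝ) ≤ n := n.cast_nonneg; linarith)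
      have e : x + ((n + 1 : ℕ) : ℝ) = x + n + 1 := by push_cast; ring
      rw [e, pow_succ']
      calc (1 - x ^ (-κ')) * (1 - x ^ (-κ')) ^ n * φ x
          = (1 - x ^ (-κ')) * ((1 - x ^ (-κ')) ^ n * φ x) := by ring
        _ ≤ (1 - x ^ (-κ')) * φ (x + n) := by
          apply mul_le_mul_of_nonneg_left ih (by linarith)
        _ ≤ (1 - (x + n) ^ (-κ')) * φ (x + n) := by
          apply mul_le_mul_of_nonneg_right _ h3.le
          linarith
        _ ≤ _ := h1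
  refine le_trans ?_ key
  apply mul_le_mul_of_nonneg_right _ hφ.le
  have h4 := one_add_mul_le_pow (show (-2 : ℝ) ≤ -x ^ (-κ') by linarith) n
  calc 1 - (n : ℝ) * x ^ (-κ') = 1 + (n : ℝ) * -x ^ (-κ') := by ring
    _ ≤ (1 + -x ^ (-κ')) ^ n := h4
    _ = (1 - x ^ (-κ')) ^ n := by ring

/-- All the facts about the scales. -/
theorem num {ν κ₁ κ' ε : ℝ} {φ : ℝ → ℝ} (hν : 0 < ν) (h1 : κ₁ < 1) (h2 : κ₁ < κ')
    (hκ' : 0 < κ') (hε : 0 < ε) (hε1 : ε < 1)
    (hpos : ∀ x, 0 < x → 0 < φ x) (hanti : AntitoneOn φ (Ioi 0))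
    (hφ : ∀ᶠ x in atTop, (1 - x ^ (-κ')) * φ x ≤ φ (x + 1)) {r s : ℝ} (hr : 0 < r) (hs : 0 < s) :
    ∃ k₀ : ℕ, 0 < k₀ ∧ ∀ k : ℕ, k₀ ≤ k → ∃ L : ℝ, L = k * (-(2 * Real.log ε)) ∧ 1 < L ∧
      0 < Real.log L ∧
      Real.exp (-(ε ^ 2 / (1 + ε ^ 2) * Real.log L)) ≤ 1 / 2 ∧
      Real.log (L + -(2 * Real.log ε)) ≤ 2 * Real.log L ∧ 1 ≤ xx ν L ∧
      (1 - dd κ₁ ε L) * φ (xx ν L) ≤ φ (xx ν (L + -(2 * Real.log ε))) ∧
      φ (xx ν L) ≤ 2 * φ (xx ν (L + -(2 * Real.log ε))) ∧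
      4 * √(4 * ν * Real.exp (-L) * Real.log L) < r ∧ Real.exp (-L) < s := by
  obtain ⟨Λ, hΛ⟩ : ∃ Λ, Λ = -(2 * Real.log ε) := ⟨_, rfl⟩
  have hΛ0 : 0 < Λ := by
    have := Real.log_neg hε hε1
    rw [hΛ]; linarith
  rw [← hΛ]
  obtain ⟨m, hm⟩ : ∃ m : ℕ, m = ⌈Λ / 2⌉₊ := ⟨_, rfl⟩
  have hmΛ : Λ / 2 ≤ m := by rw [hm]; exact Nat.le_ceil _
  obtain ⟨X₀, hX₀⟩ := eventually_atTop.1 hφ
  obtain ⟨X, hX⟩ : ∃ X, X = max 1 X₀ := ⟨_, rfl⟩
  have hX1 : 1 ≤ X := by rw [hX]; exact le_max_left _ _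
  have hXφ : ∀ x, X ≤ x → (1 - x ^ (-κ')) * φ x ≤ φ (x + 1) := fun x hx =>
    hX₀ x (le_trans (by rw [hX]; exact le_max_right _ _) hx)
  have a1 : ∀ᶠ L in atTop, (1 : ℝ) < L := eventually_gt_atTop 1
  have a2 : ∀ᶠ L in atTop, Real.exp (-(ε ^ 2 / (1 + ε ^ 2) * Real.log L)) ≤ 1 / 2 := by
    have t : Tendsto (fun L => Real.exp (-(ε ^ 2 / (1 + ε ^ 2) * Real.log L))) atTop (𝓝 0) :=
      Real.tendsto_exp_neg_atTop_nhds_zero.comp
        (Real.tendsto_log_atTop.const_mul_atTop (by positivity))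
    filter_upwards [t.eventually (gt_mem_nhds (show (0 : ℝ) < 1 / 2 by norm_num))] with L hL
    exact hL.le
  have a3 := log_dbl hΛ0
  have a4 := xx_big hν
  have a5 : ∀ᶠ L : ℝ in atTop, X ≤ L / 4 := by
    filter_upwards [eventually_ge_atTop (4 * X)] with L hL
    linarith
  have a6 := dd_big (m := m) h1 h2 hε
  have a7 : ∀ᶠ L : ℝ in atTop, (m : ℝ) * (L / 4) ^ (-κ') ≤ 1 / 2 := by
    have t : Tendsto (fun L : ℝ => (m : ℝ) * (L / 4) ^ (-κ')) atTop (𝓝 0) := by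
      have := ((tendsto_rpow_neg_atTop hκ').comp
        (tendsto_id.atTop_div_const (show (0 : ℝ) < 4 by norm_num))).const_mul (m : ℝ)
      simpa using this
    filter_upwards [t.eventually (gt_mem_nhds (show (0 : ℝ) < 1 / 2 by norm_num))] with L hL
    exact hL.le
  have a8 : ∀ᶠ L : ℝ in atTop, -Real.log r < L / 4 := by
    filter_upwards [eventually_gt_atTop (4 * (-Real.log r))] with L hL
    linarith
  have a9 : ∀ᶠ L : ℝ in atTop, Real.exp (-L) < s :=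
    Real.tendsto_exp_neg_atTop_nhds_zero.eventually (gt_mem_nhds hs)
  have tk : Tendsto (fun k : ℕ => (k : ℝ) * Λ) atTop atTop :=
    tendsto_natCast_atTop_atTop.atTop_mul_const hΛ0
  obtain ⟨k₀, hk₀⟩ := eventually_atTop.1 (tk.eventually
    (a1.and (a2.and (a3.and (a4.and (a5.and (a6.and (a7.and (a8.and a9)))))))))
  refine ⟨k₀ + 1, Nat.succ_pos _, fun k hk => ⟨k * Λ, rfl, ?_⟩⟩
  obtain ⟨b1, b2, b3, b4, b5, b6, b7, b8, b9⟩ := hk₀ k (by omega)
  obtain ⟨L, hL⟩ : ∃ L : ℝ, L = k * Λ := ⟨_, rfl⟩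
  rw [← hL] at b1 b2 b3 b4 b5 b6 b7 b8 b9 ⊢
  have hl : 0 < Real.log L := Real.log_pos b1
  have hXx : X ≤ xx ν L := b5.trans b4
  have hx0 : 0 < xx ν L := by linarith
  have hx1 : 0 < xx ν (L + Λ) := by
    have h3 : 0 < L / 4 := by linarith
    have h4 := hk₀ (k + 1) (by omega)
    have h5 : ((k + 1 : ℕ) : ℝ) * Λ = L + Λ := by rw [hL]; push_cast; ring
    rw [h5] at h4
    have h6 := h4.2.2.2.1
    linarith
  have c1 : (m : ℝ) * xx ν L ^ (-κ') ≤ m * (L / 4) ^ (-κ') := by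
    apply mul_le_mul_of_nonneg_left _ (Nat.cast_nonneg m)
    exact Real.rpow_le_rpow_of_nonpos (by linarith) b4 (by linarith)
  have c2 : (1 - m * xx ν L ^ (-κ')) * φ (xx ν L) ≤ φ (xx ν (L + Λ)) := by
    refine (phi_iter hκ' hX1 hpos hXφ m hXx).trans ?_
    apply hanti hx1 (show (0 : ℝ) < xx ν L + m by positivity)
    have := xx_step (ν := ν) hν b1 hΛ0
    linarith
  have hφ0 := hpos _ hx0
  refine ⟨b1, hl, b2, b3, by linarith, ?_, ?_, ?_, b9⟩
  · refine le_trans ?_ c2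
    apply mul_le_mul_of_nonneg_right _ hφ0.le
    linarith
  · have h3 : (1 / 2 : ℝ) * φ (xx ν L) ≤ φ (xx ν (L + Λ)) := by
      refine le_trans ?_ c2
      apply mul_le_mul_of_nonneg_right _ hφ0.le
      linarith
    linarith
  · have h3 : -Real.log r < xx ν L := b8.trans_le b4
    unfold xx at h3
    have h4 : Real.log (4 * √(4 * ν * Real.exp (-L) * Real.log L)) < Real.log r := by linarith
    have h5 : 0 < √(4 * ν * Real.exp (-L) * Real.log L) := Real.sqrt_pos.2 (by positivity)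
    exact (Real.log_lt_log_iff (by positivity) hr).1 h4

end Pool.Agent.NH62.AX
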