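import Pool.Agent.NH62.AX.Win
import Pool.Agent.NH62.AX.Num
import Pool.Agent.TH305.AX.BVanc

/-!
Axisymmetric flows: the iteration over the time windows (helper62).
-/

set_option autoImplicit false

open MeasureTheory Set Metric Filter Topology
open scoped ContDiff

namespace Pool.Agent.NH62.AX

open H459R3.NS W221.NS Pool.Agent.TH305.DR Pool.Agent.TH305.AX

/-- The distance to the axis (`c = 0`), or its maximum with the axial distance to `z₀`
(`c = 1`). -/
noncomputable def rc (c z₀ : ℝ) (x : V) : ℝ := max √(sg x) (c * |x 2 - z₀|)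

lemma rc_le {c z₀ r : ℝ} {x : V} : rc c z₀ x ≤ r ↔ √(sg x) ≤ r ∧ c * |x 2 - z₀| ≤ r := max_le_iff

lemma par_eps {κ κ₁ : ℝ} (hκ : 0 < κ) (h : κ < κ₁) :
    ∃ ε : ℝ, 0 < ε ∧ ε ≤ 1 / 6 ∧ √κ + 7 * ε ≤ √κ₁ := by
  have h1 : √κ < √κ₁ := Real.sqrt_lt_sqrt hκ.le h
  refine ⟨min (1 / 6) ((√κ₁ - √κ) / 7), lt_min (by norm_num) (by linarith), min_le_left _ _, ?_⟩
  have := min_le_right (1 / 6 : ℝ) ((√κ₁ - √κ) / 7)
  linarith

variable {ν T : ℝ} {u : ℝ → V → V} {p : ℝ → V → ℝ}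

lemma mono_of_hd {a b : ℝ} {G g : ℝ → ℝ} (hG : ∀ t ∈ Ioo a b, HasDerivAt G (g t) t)
    (hg : ∀ t ∈ Ioo a b, 0 ≤ g t) : MonotoneOn G (Ioo a b) := by
  apply monotoneOn_of_deriv_nonneg (convex_Ioo a b)
  · exact fun t ht => (hG t ht).continuousAt.continuousWithinAt
  · rw [interior_Ioo]
    exact fun t ht => (hG t ht).differentiableAt.differentiableWithinAt
  · rw [interior_Ioo]
    intro t ht
    rw [(hG t ht).deriv]
    exact hg t ht

theorem iter {t₁ t₂ κ κ' c z₀ r₀ s₁ M₀ : ℝ} (hν : 0 < ν) (h : BSol ν T u p)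
    (hc : c = 0 ∨ c = 1) (ht1 : 0 ≤ t₁) (ht12 : t₁ < t₂) (hκ : 0 < κ)
    (hκκ' : κ < κ') (hκ1 : κ < 1) (hr₀ : 0 < r₀) (hs₁ : 0 < s₁) {φ : ℝ → ℝ}
    (hpos : ∀ x, 0 < x → 0 < φ x) (hanti : AntitoneOn φ (Ioi 0))
    (hφ : ∀ᶠ x in atTop, (1 - x ^ (-κ')) * φ x ≤ φ (x + 1))
    (hbd : ∀ t ∈ Ioo t₁ T, ∀ x, rc c z₀ x < r₀ → |circ (u t) x| ≤ M₀)
    {G g : ℝ → ℝ} (hG : ∀ t ∈ Ioo t₁ T, HasDerivAt G (g t) t) (hg : ∀ t ∈ Ioo t₁ T, 0 ≤ g t)
    (hmod : ∀ t ∈ Ioo t₁ T, ∀ t' ∈ Ioo t₁ T, t < t' → t' - t < s₁ →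
      G t' - G t ≤ √(4 * κ * ν * (t' - t) * Real.log (Real.log (1 / (t' - t)))))
    {J B : ℝ → ℝ} (hJ : ∀ t ∈ Ioo t₁ T, HasDerivAt J (B t) t) (hB : ∀ t ∈ Ioo t₁ T, 0 ≤ B t)
    (hJu : UniformContinuousOn J (Ioo t₁ T))
    (hcond : ∀ t ∈ Ioo t₁ T, ∀ x, 0 < √(sg x) → rc c z₀ x < r₀ →
      φ (-Real.log (rc c z₀ x)) < |circ (u t) x| →
      -ν - g t * √(sg x) - B t * √(sg x) ^ 2 ≤ x 0 * u t x 0 + x 1 * u t x 1 ∧
      (c = 1 → -(g t * |x 2 - z₀|) - B t * |x 2 - z₀| ^ 2 ≤ (x 2 - z₀) * u t x 2)) :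
    ∃ A r₁ : ℝ, 0 < r₁ ∧ r₁ < r₀ ∧ r₁ < 1 ∧ ∀ t ∈ Ico t₂ T, ∀ x, 0 < rc c z₀ x →
      rc c z₀ x ≤ r₁ → |circ (u t) x| ≤ A * φ (-Real.log (rc c z₀ x)) := by
  obtain ⟨κ₁, hκ₁⟩ : ∃ κ₁, κ₁ = (κ + min κ' 1) / 2 := ⟨_, rfl⟩
  have hmin : κ < min κ' 1 := lt_min hκκ' hκ1
  have k1 : κ < κ₁ := by rw [hκ₁]; linarith
  have k2 : κ₁ < κ' := by
    have := min_le_left κ' 1
    rw [hκ₁]; linarith
  have k3 : κ₁ < 1 := by
    have := min_le_right κ' 1
    rw [hκ₁]; linarith
  obtain ⟨κ₂, hκ₂⟩ : ∃ κ₂, κ₂ = (κ + κ₁) / 2 := ⟨_, rfl⟩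
  have k4 : κ < κ₂ := by rw [hκ₂]; linarith
  have k5 : κ₂ < κ₁ := by rw [hκ₂]; linarith
  have hκ₂0 : 0 < κ₂ := hκ.trans k4
  obtain ⟨ε, hε, hε6, hκε⟩ := par_eps hκ₂0 k5
  have hε1 : ε < 1 := by linarith
  obtain ⟨b, hb⟩ : ∃ b, b = (√κ₂ - √κ) / 4 := ⟨_, rfl⟩
  have hb0 : 0 < b := by
    have := Real.sqrt_lt_sqrt hκ.le k4
    rw [hb]; linarith
  obtain ⟨s₂, hs₂, hJs⟩ := Metric.uniformContinuousOn_iff.1 hJu b hb0
  obtain ⟨k₀, hk₀, H⟩ := num (s := min (min s₁ s₂) (t₂ - t₁)) hν k3 k2 (hκ.trans hκκ') hε hε1 hpos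
    hanti hφ hr₀ (lt_min (lt_min hs₁ hs₂) (by linarith))
  obtain ⟨Λ, hΛ⟩ : ∃ Λ, Λ = -(2 * Real.log ε) := ⟨_, rfl⟩
  rw [← hΛ] at H
  obtain ⟨L, hL⟩ : ∃ L : ℕ → ℝ, L = fun k : ℕ => (k : ℝ) * Λ := ⟨_, rfl⟩
  obtain ⟨Q, hQ⟩ : ∃ Q : ℕ → ℝ, Q = fun k =>
    √(4 * ν * Real.exp (-L k) * Real.log (L k)) := ⟨_, rfl⟩
  have hQk' : ∀ k, Q k = √(4 * ν * Real.exp (-L k) * Real.log (L k)) := fun k => by rw [hQ]
  have hL1 : ∀ k, L (k + 1) = L k + Λ := fun k => by rw [hL]; push_cast; ring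
  have hS1 : ∀ k, Real.exp (-L (k + 1)) = ε ^ 2 * Real.exp (-L k) := by
    intro k
    have h1 : ε ^ 2 = Real.exp (-Λ) := by
      rw [hΛ, neg_neg, two_mul, Real.exp_add, Real.exp_log hε]
      ring
    rw [hL1, h1, ← Real.exp_add]
    congr 1
    ring
  have H' : ∀ k, k₀ ≤ k → 1 < L k ∧ 0 < Real.log (L k) ∧
      Real.exp (-(ε ^ 2 / (1 + ε ^ 2) * Real.log (L k))) ≤ 1 / 2 ∧
      Real.log (L (k + 1)) ≤ 2 * Real.log (L k) ∧ 1 ≤ xx ν (L k) ∧
      (1 - dd κ₁ ε (L k)) * φ (xx ν (L k)) ≤ φ (xx ν (L (k + 1))) ∧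
      φ (xx ν (L k)) ≤ 2 * φ (xx ν (L (k + 1))) ∧
      4 * Q k < r₀ ∧ Real.exp (-L k) < min (min s₁ s₂) (t₂ - t₁) := by
    intro k hk
    obtain ⟨L', hL', H1⟩ := H k hk
    have e : L k = L' := by rw [hL', hL]
    rw [hL1, hQk', e]
    exact H1
  have hxQ : ∀ k, xx ν (L k) = -Real.log (4 * Q k) := fun k => by rw [hQ]; rfl
  have hQpos : ∀ k, k₀ ≤ k → 0 < Q k := by
    intro k hk
    have h1 := (H' k hk).2.1
    rw [hQ]
    exact Real.sqrt_pos.2 (by positivity)
  have hx0 : ∀ k, k₀ ≤ k → 0 < xx ν (L k) := fun k hk => by linarith [(H' k hk).2.2.2.2.1]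
  obtain ⟨A, hA⟩ : ∃ A, A = max 2 (M₀ / φ (xx ν (L k₀))) := ⟨_, rfl⟩
  have hA2 : 2 ≤ A := by rw [hA]; exact le_max_left _ _
  have hAM : M₀ ≤ A * φ (xx ν (L k₀)) := by
    rw [← div_le_iff₀ (hpos _ (hx0 k₀ le_rfl)), hA]
    exact le_max_right _ _
  have hmono := mono_of_hd hG hg
  have hmonoJ := mono_of_hd hJ hB
  -- the iteration
  have main : ∀ t₀ ∈ Ico t₂ T, ∀ n : ℕ, ∀ t ∈ Ico (t₀ - Real.exp (-L (k₀ + n))) t₀, ∀ x,
      rc c z₀ x ≤ 4 * Q (k₀ + n) → |circ (u t) x| ≤ A * φ (xx ν (L (k₀ + n))) := by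
    intro t₀ ht₀ n
    induction n with
    | zero =>
      intro t ht x hx
      obtain ⟨-, -, -, -, -, -, -, b8, b9⟩ := H' k₀ le_rfl
      rw [add_zero] at ht hx ⊢
      refine le_trans (hbd t ⟨?_, ht.2.trans_le ht₀.2.le⟩ x (hx.trans_lt b8)) hAM
      have h1 := b9.trans_le (min_le_right _ _)
      linarith [ht.1, ht₀.1]
    | succ n ih =>
      obtain ⟨k, hk⟩ : ∃ k, k = k₀ + n := ⟨_, rfl⟩
      have hkk : k₀ ≤ k := by omega
      rw [← hk] at ih
      have e1 : k₀ + (n + 1) = k + 1 := by omega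
      rw [e1]
      obtain ⟨b1, b2, b3, b4, b5, b6, b7, b8, b9⟩ := H' k hkk
      obtain ⟨s, hs⟩ : ∃ s, s = Real.exp (-L k) := ⟨_, rfl⟩
      have hs0 : 0 < s := by rw [hs]; exact Real.exp_pos _
      obtain ⟨a, ha⟩ : ∃ a, a = t₀ - s := ⟨_, rfl⟩
      rw [← hs] at b9 ih
      have hat : t₁ < a := by
        have h1 := b9.trans_le (min_le_right _ _)
        linarith [ht₀.1]
      have haT : a + s = t₀ := by rw [ha]; ring
      have hsol : BSol ν s (fun t => u (a + t)) (fun t => p (a + t)) :=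
        (shift h (by linarith)).restrict (by linarith [ht₀.2])
      have hI : ∀ τ ∈ Ico 0 s, a + τ ∈ Ioo t₁ T := fun τ hτ =>
        ⟨by linarith [hτ.1], by linarith [hτ.2, ht₀.2]⟩
      have haI : a ∈ Ioo t₁ T := ⟨hat, by linarith [ht₀.2]⟩
      have ht₀I : t₀ ∈ Ioo t₁ T := ⟨by linarith, ht₀.2⟩
      have hφ0 := hpos _ (hx0 k hkk)
      have hQk : √(4 * ν * s * Real.log (L k)) = Q k := by rw [hQ, hs]
      have hQ0 : 0 < Q k := hQpos k hkk
      have key := win (M := A * φ (xx ν (L k))) (c := c) (z₀ := z₀) (l := Real.log (L k))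
        (Y := fun τ => G (a + τ) - G a + 4 * Q k * (J (a + τ) - J a))
        (g := fun τ => g (a + τ) + 4 * Q k * B (a + τ)) hν hκ₂0 k3.le hε hε6 hκε hs0 b2
        b3 hsol (by positivity) hc
        (by
          intro τ hτ x hx hxz
          rw [hQk] at hx hxz
          exact ih (a + τ) ⟨by linarith [hτ.1], by linarith [hτ.2]⟩ x (rc_le.2 ⟨hx, hxz⟩))
        (by simp)
        (by
          intro τ hτ
          have h1 : ContinuousAt G (a + τ) := (hG _ (hI τ hτ)).continuousAt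
          have h1' : ContinuousAt J (a + τ) := (hJ _ (hI τ hτ)).continuousAt
          have h2 : ContinuousAt (fun τ => G (a + τ) - G a) τ :=
            (ContinuousAt.comp (g := G) (f := fun τ => a + τ) h1 (by fun_prop)).sub
              continuousAt_const
          have h2' : ContinuousAt (fun τ => 4 * Q k * (J (a + τ) - J a)) τ :=
            continuousAt_const.mul ((ContinuousAt.comp (g := J) (f := fun τ => a + τ) h1'
              (by fun_prop)).sub continuousAt_const)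
          exact (h2.add h2').continuousWithinAt)
        (by
          intro τ hτ
          have h1 := hG _ (hI τ (Ioo_subset_Ico_self hτ))
          have h1' := hJ _ (hI τ (Ioo_subset_Ico_self hτ))
          have h2 : HasDerivAt (fun τ : ℝ => a + τ) 1 τ := (hasDerivAt_id τ).const_add a
          have h3 := (h1.comp τ h2).sub_const (G a)
          have h3' := ((h1'.comp τ h2).sub_const (J a)).const_mul (4 * Q k)
          exact (h3.add h3').congr_deriv (by ring))
        (by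
          intro τ hτ
          have h1 := hmono haI (hI τ hτ) (by linarith [hτ.1])
          have h1' := hmonoJ haI (hI τ hτ) (by linarith [hτ.1])
          have h2' : 0 ≤ 4 * Q k * (J (a + τ) - J a) := mul_nonneg (by positivity) (by linarith)
          show 0 ≤ G (a + τ) - G a + 4 * Q k * (J (a + τ) - J a)
          linarith)
        (by
          intro τ hτ
          have h1 := hmono (hI τ hτ) ht₀I (by linarith [hτ.2])
          have h1' := hmonoJ (hI τ hτ) ht₀I (by linarith [hτ.2])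
          have h2 := hmod a haI t₀ ht₀I (by linarith) (by
            have := b9.trans_le ((min_le_left _ _).trans (min_le_left _ _))
            linarith)
          have h3 : t₀ - a = s := by linarith
          have h4 : Real.log (1 / s) = L k := by
            rw [hs, one_div, ← Real.exp_neg, neg_neg, Real.log_exp]
          rw [h3, h4] at h2
          have h5 : J t₀ - J a < b := by
            have h6 := hJs t₀ ht₀I a haI (by
              rw [Real.dist_eq, h3, abs_of_pos hs0]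
              exact b9.trans_le ((min_le_left _ _).trans (min_le_right _ _)))
            rw [Real.dist_eq] at h6
            exact (le_abs_self _).trans_lt h6
          have h6 : 4 * Q k * (J (a + τ) - J a) ≤ (√κ₂ - √κ) * Q k := by
            have h7 : J (a + τ) - J a ≤ b := by linarith
            calc 4 * Q k * (J (a + τ) - J a) ≤ 4 * Q k * b := by gcongr
              _ = _ := by rw [hb]; ring
          have h7 : √(4 * κ * ν * s * Real.log (L k)) = √κ * Q k := by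
            rw [← hQk, ← Real.sqrt_mul hκ.le]
            congr 1
            ring
          have h8 : √(4 * κ₂ * ν * s * Real.log (L k)) = √κ₂ * Q k := by
            rw [← hQk, ← Real.sqrt_mul hκ₂0.le]
            congr 1
            ring
          rw [h7] at h2
          rw [h8]
          show G (a + τ) - G a + 4 * Q k * (J (a + τ) - J a) ≤ _
          linarith)
        (fun τ hτ => add_nonneg (hg _ (hI τ (Ioo_subset_Ico_self hτ)))
          (mul_nonneg (by positivity) (hB _ (hI τ (Ioo_subset_Ico_self hτ)))))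
        (by
          intro τ hτ x hx0' hxR hxz hbig
          rw [hQk] at hxR hxz
          have h1 : rc c z₀ x ≤ 4 * Q k := rc_le.2 ⟨hxR.le, hxz⟩
          have h2 : 0 < rc c z₀ x := lt_of_lt_of_le hx0' (le_max_left _ _)
          have h3 : xx ν (L k) ≤ -Real.log (rc c z₀ x) := by
            rw [hxQ]
            have := Real.log_le_log h2 h1
            linarith
          have h4 := hanti (hx0 k hkk) (show (0 : ℝ) < -Real.log (rc c z₀ x) by
            linarith [hx0 k hkk]) h3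
          obtain ⟨h5, h6⟩ := hcond (a + τ) (hI τ (Ioo_subset_Ico_self hτ)) x hx0'
            (h1.trans_lt b8) (by
              refine lt_of_le_of_lt ?_ hbig
              nlinarith)
          have hBt := hB _ (hI τ (Ioo_subset_Ico_self hτ))
          constructor
          · have h7 : B (a + τ) * √(sg x) ^ 2 ≤ 4 * Q k * B (a + τ) * √(sg x) := by
              have h8 : B (a + τ) * √(sg x) * √(sg x) ≤ B (a + τ) * √(sg x) * (4 * Q k) :=
                mul_le_mul_of_nonneg_left hxR.le (by positivity)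
              nlinarith
            show -ν - (g (a + τ) + 4 * Q k * B (a + τ)) * √(sg x) ≤ _
            linarith
          · intro hc1
            have h9 := h6 hc1
            rw [hc1, one_mul] at hxz
            have h0 := abs_nonneg (x 2 - z₀)
            have h7 : B (a + τ) * |x 2 - z₀| ^ 2 ≤ 4 * Q k * B (a + τ) * |x 2 - z₀| := by
              have h8 : B (a + τ) * |x 2 - z₀| * |x 2 - z₀|
                  ≤ B (a + τ) * |x 2 - z₀| * (4 * Q k) :=
                mul_le_mul_of_nonneg_left hxz (by positivity)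
              nlinarith
            show -((g (a + τ) + 4 * Q k * B (a + τ)) * |x 2 - z₀|) ≤ _
            linarith)
      intro t ht x hx
      obtain ⟨hx1, hx2⟩ := rc_le.1 hx
      have hrad : 4 * Q (k + 1) ≤ 6 * ε * √(4 * ν * s * Real.log (L k)) := by
        rw [hQ]
        have e2 : 4 * √(4 * ν * Real.exp (-L (k + 1)) * Real.log (L (k + 1)))
            = √(16 * (4 * ν * Real.exp (-L (k + 1)) * Real.log (L (k + 1)))) := by
          have h16 : √(16 : ℝ) = 4 := by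
            rw [show (16 : ℝ) = 4 ^ 2 by norm_num, Real.sqrt_sq (by norm_num)]
          rw [Real.sqrt_mul (show (0 : ℝ) ≤ 16 by norm_num)
            (4 * ν * Real.exp (-L (k + 1)) * Real.log (L (k + 1))), h16]
        have e3 : 6 * ε * √(4 * ν * s * Real.log (L k))
            = √((6 * ε) ^ 2 * (4 * ν * s * Real.log (L k))) := by
          rw [Real.sqrt_mul (show (0 : ℝ) ≤ (6 * ε) ^ 2 by positivity) (4 * ν * s * Real.log (L k)),
            Real.sqrt_sq (by positivity)]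
        show 4 * √(4 * ν * Real.exp (-L (k + 1)) * Real.log (L (k + 1))) ≤ _
        rw [e2, e3, hS1, ← hs]
        apply Real.sqrt_le_sqrt
        have h1 : 16 * (4 * ν * (ε ^ 2 * s) * Real.log (L (k + 1)))
            ≤ 16 * (4 * ν * (ε ^ 2 * s) * (2 * Real.log (L k))) := by gcongr
        refine h1.trans ?_
        have h2 : 0 ≤ ν * ε ^ 2 * s * Real.log (L k) := by positivity
        nlinarith
      have h1 := key (t - a) (by
        have e2 : Real.exp (-L (k + 1)) = ε ^ 2 * s := by rw [hS1, hs]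
        rw [e2] at ht
        exact ⟨by linarith [ht.1], by linarith [ht.2]⟩) x (hx1.trans hrad) (hx2.trans hrad)
      have e3 : a + (t - a) = t := by ring
      rw [e3] at h1
      refine h1.trans ?_
      have h2 := mul_le_mul_of_nonneg_left b6 (show 0 ≤ A by linarith)
      unfold dd at h2
      linarith
  -- the conclusion
  have hr1 : 4 * Q k₀ < 1 := by
    have h1 := hx0 k₀ le_rfl
    rw [hxQ] at h1
    have h2 : Real.log (4 * Q k₀) < 0 := by linarith
    have h3 : 0 < 4 * Q k₀ := by have := hQpos k₀ le_rfl; positivity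
    by_contra hcon
    push Not at hcon
    have := Real.log_nonneg hcon
    linarith
  refine ⟨2 * A, 4 * Q k₀, by have := hQpos k₀ le_rfl; positivity, (H' k₀ le_rfl).2.2.2.2.2.2.2.1,
    hr1, ?_⟩
  intro t ht x hx0' hxr
  -- the scales become small
  have hex : ∃ n : ℕ, 4 * Q (k₀ + n + 1) < rc c z₀ x := by
    obtain ⟨k₂, hk₂, H2⟩ := num (r := rc c z₀ x) (s := 1) hν k3 k2 (hκ.trans hκκ') hε hε1 hpos
      hanti hφ hx0' one_pos
    refine ⟨k₂, ?_⟩
    obtain ⟨L', hL', -, -, -, -, -, -, -, h8, -⟩ := H2 (k₀ + k₂ + 1) (by omega)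
    have e : L (k₀ + k₂ + 1) = L' := by rw [hL', hL, hΛ]
    rw [hQ]
    show 4 * √(4 * ν * Real.exp (-L (k₀ + k₂ + 1)) * Real.log (L (k₀ + k₂ + 1))) < _
    rw [e]
    exact h8
  classical
  obtain ⟨n, hn⟩ : ∃ n, n = Nat.find hex := ⟨_, rfl⟩
  have hn1 : 4 * Q (k₀ + n + 1) < rc c z₀ x := by rw [hn]; exact Nat.find_spec hex
  have hn2 : rc c z₀ x ≤ 4 * Q (k₀ + n) := by
    rcases Nat.eq_zero_or_pos n with h0 | h0
    · rw [h0]
      exact hxr
    · have h1 := Nat.find_min hex (m := n - 1) (by omega)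
      push Not at h1
      have e : k₀ + (n - 1) + 1 = k₀ + n := by omega
      rwa [e] at h1
  obtain ⟨b1, b2, b3, b4, b5, b6, b7, b8, b9⟩ := H' (k₀ + n) (by omega)
  obtain ⟨t₀, hta, htb⟩ : ∃ t₀, t < t₀ ∧ t₀ < min T (t + Real.exp (-L (k₀ + n))) :=
    exists_between (lt_min ht.2 (by linarith [Real.exp_pos (-L (k₀ + n))]))
  have h1 := main t₀ ⟨ht.1.trans hta.le, htb.trans_le (min_le_left _ _)⟩ n t
    ⟨by linarith [htb.trans_le (min_le_right T (t + Real.exp (-L (k₀ + n))))], hta⟩ x hn2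
  refine h1.trans ?_
  have hx1 : 0 < xx ν (L (k₀ + n + 1)) := hx0 _ (by omega)
  have h2 : -Real.log (rc c z₀ x) ≤ xx ν (L (k₀ + n + 1)) := by
    rw [hxQ]
    have h3 : 0 < Q (k₀ + n + 1) := hQpos _ (by omega)
    have := Real.log_le_log (by positivity) hn1.le
    linarith
  have h3 : 0 < -Real.log (rc c z₀ x) := by
    have := Real.log_neg hx0' (hxr.trans_lt hr1)
    linarith
  have h4 := hanti h3 hx1 h2
  have hA0 : 0 ≤ A := by linarith
  calc A * φ (xx ν (L (k₀ + n))) ≤ A * (2 * φ (xx ν (L (k₀ + n + 1)))) := by gcongr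
    _ ≤ A * (2 * φ (-Real.log (rc c z₀ x))) := by gcongr
    _ = _ := by ring

end Pool.Agent.NH62.AX
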