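import Pool.Agent.NH62.AX.Bar

/-!
Axisymmetric flows: one step of the decay of the circulation (helper62).
-/

set_option autoImplicit false

open MeasureTheory Set Metric Filter Topology
open scoped ContDiff

namespace Pool.Agent.NH62.AX

open H459R3.NS W221.NS Pool.Agent.TH305.DR Pool.Agent.TH305.AX

variable {ν s R s₀ y₀ η α c z₀ M : ℝ} {u : ℝ → V → V} {p : ℝ → V → ℝ}

lemma KK_le (hν : 0 < ν) (hs₀ : 0 < s₀) {τ y q : ℝ} (hτ : 0 ≤ τ) (hτs : τ ≤ s) (hq : 0 ≤ q)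
    (hqy : q ≤ y + y₀) : KK ν s₀ y₀ τ y ≤ Real.exp (-(q ^ 2 / (4 * ν * (s + s₀)))) := by
  unfold KK LL
  apply Real.exp_le_exp.2
  have h1 : Real.log s₀ ≤ Real.log (τ + s₀) := Real.log_le_log hs₀ (by linarith)
  have h2 : q ^ 2 / (4 * ν * (s + s₀)) ≤ (y + y₀) ^ 2 / (4 * ν * (τ + s₀)) := by
    apply div_le_div₀ (by positivity) (by gcongr) (by positivity)
    gcongr
  linarith

/-- The axial part of the barrier. -/
noncomputable def EE (ν α R z₀ : ℝ) (Y : ℝ → ℝ) (t z : ℝ) : ℝ :=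
  Real.exp (α * (z - z₀) + (α * (Y t - R) + ν * α ^ 2 * t))
    + Real.exp (-(α * (z - z₀)) + (α * (Y t - R) + ν * α ^ 2 * t))

lemma EE_nonneg (Y : ℝ → ℝ) (t z : ℝ) : 0 ≤ EE ν α R z₀ Y t z := by
  unfold EE
  positivity

lemma adv_ineq {z w g a e₁ e₂ : ℝ} (ha : 0 ≤ a) (hg : 0 ≤ g) (he₁ : 0 ≤ e₁) (he₂ : 0 ≤ e₂)
    (h1 : 0 < z → e₂ ≤ e₁) (h2 : z < 0 → e₁ ≤ e₂) (h3 : z = 0 → e₁ = e₂)
    (hw : -(g * |z|) ≤ z * w) : -(w * (a * e₁ - a * e₂)) ≤ a * g * (e₁ + e₂) := by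
  have key : -(w * (e₁ - e₂)) ≤ g * (e₁ + e₂) := by
    rcases lt_trichotomy z 0 with hz | hz | hz
    · have h4 := h2 hz
      rw [abs_of_neg hz] at hw
      have h5 : w ≤ g := by
        by_contra hcon
        push Not at hcon
        nlinarith
      nlinarith
    · have h4 := h3 hz
      rw [h4]
      nlinarith
    · have h4 := h1 hz
      rw [abs_of_pos hz] at hw
      have h5 : -g ≤ w := by
        by_contra hcon
        push Not at hcon
        nlinarith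
      nlinarith
  have := mul_le_mul_of_nonneg_left key ha
  nlinarith

theorem step (hν : 0 < ν) (h : BSol ν s u p) (hR : 0 < R) (hs₀ : 0 < s₀) (hy₀ : 0 < y₀)
    (hM : 0 ≤ M) (hη : 0 ≤ η) (hα : 0 ≤ α) (hc : c = 0 ∨ c = 1)
    (hbd : ∀ t ∈ Ico 0 s, ∀ x, √(sg x) ≤ R → c * |x 2 - z₀| ≤ R → |circ (u t) x| ≤ M)
    {Y g : ℝ → ℝ} (hY0 : Y 0 = 0) (hYc : ContinuousOn Y (Ico 0 s))
    (hYd : ∀ t ∈ Ioo 0 s, HasDerivAt Y (g t) t) (hYn : ∀ t ∈ Ico 0 s, 0 ≤ Y t)
    (hg : ∀ t ∈ Ioo 0 s, 0 ≤ g t)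
    (hcond : ∀ t ∈ Ioo 0 s, ∀ x, 0 < √(sg x) → √(sg x) < R → c * |x 2 - z₀| ≤ R →
      M / 2 < |circ (u t) x| →
      -ν - g t * √(sg x) ≤ x 0 * u t x 0 + x 1 * u t x 1 ∧
      (c = 1 → -(g t * |x 2 - z₀|) ≤ (x 2 - z₀) * u t x 2))
    (hη1 : Real.exp (-(y₀ ^ 2 / (4 * ν * s₀))) ≤ η)
    (hη2 : Real.exp (-(R ^ 2 / (4 * ν * (s + s₀)))) ≤ η)
    (hhalf : Real.exp (-(y₀ ^ 2 / (4 * ν * (s + s₀)))) ≤ 1 / 2) :
    ∀ t ∈ Ico 0 s, ∀ x, √(sg x) ≤ R → c * |x 2 - z₀| ≤ R →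
      |circ (u t) x| ≤ M * (1 + η - KK ν s₀ y₀ t (√(sg x) + Y t)
        + c * EE ν α R z₀ Y t (x 2)) := by
  have hc0 : 0 ≤ c := by rcases hc with h1 | h1 <;> rw [h1] <;> norm_num
  obtain ⟨Zs, hZs⟩ : ∃ Zs : Set ℝ, Zs = {z | c * |z - z₀| ≤ R} := ⟨_, rfl⟩
  have hZm : ∀ z, z ∈ Zs ↔ c * |z - z₀| ≤ R := fun z => by rw [hZs]; rfl
  have hZc : IsClosed Zs := by
    rw [hZs]
    exact isClosed_le (by fun_prop) continuous_const
  have hZi : ∀ z, z ∉ interior Zs → R ≤ c * |z - z₀| := by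
    intro z hz
    by_contra hcon
    push Not at hcon
    apply hz
    rw [mem_interior]
    refine ⟨{z | c * |z - z₀| < R}, fun y hy => ?_, isOpen_lt (by fun_prop) continuous_const,
      hcon⟩
    rw [hZs]
    exact le_of_lt (show c * |y - z₀| < R from hy)
  have hsS : ∀ x : V, sg x ≤ R ^ 2 ↔ √(sg x) ≤ R := fun x => (Real.sqrt_le_left hR.le).symm
  -- bounds of the kernel
  have hKhalf : ∀ t ∈ Ico 0 s, ∀ y, 0 ≤ y → KK ν s₀ y₀ t y ≤ 1 / 2 := fun t ht y hy =>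
    (KK_le hν hs₀ ht.1 ht.2.le hy₀.le (by linarith)).trans hhalf
  have hΦ : ∀ t ∈ Ico 0 s, ∀ σ, 1 / 2 ≤ 1 + η - KK ν s₀ y₀ t (√σ + Y t) := by
    intro t ht σ
    have h1 := hKhalf t ht (√σ + Y t) (add_nonneg (Real.sqrt_nonneg _) (hYn t ht))
    linarith
  have hEd : ∀ t z, HasDerivAt (fun z => α * (z - z₀) + (α * (Y t - R) + ν * α ^ 2 * t)) α z := by
    intro t z
    have := (((hasDerivAt_id z).sub_const z₀).const_mul α).add_const
      (α * (Y t - R) + ν * α ^ 2 * t)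
    exact this.congr_deriv (by ring)
  have hEd' : ∀ t z, HasDerivAt (fun z => -(α * (z - z₀)) + (α * (Y t - R) + ν * α ^ 2 * t))
      (-α) z := by
    intro t z
    have := ((((hasDerivAt_id z).sub_const z₀).const_mul α).neg).add_const
      (α * (Y t - R) + ν * α ^ 2 * t)
    exact this.congr_deriv (by ring)
  obtain ⟨e₁, he₁⟩ : ∃ e₁ : ℝ → ℝ → ℝ, e₁ = fun t z =>
    Real.exp (α * (z - z₀) + (α * (Y t - R) + ν * α ^ 2 * t)) := ⟨_, rfl⟩
  obtain ⟨e₂, he₂⟩ : ∃ e₂ : ℝ → ℝ → ℝ, e₂ = fun t z =>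
    Real.exp (-(α * (z - z₀)) + (α * (Y t - R) + ν * α ^ 2 * t)) := ⟨_, rfl⟩
  have he₁0 : ∀ t z, 0 < e₁ t z := fun t z => by rw [he₁]; exact Real.exp_pos _
  have he₂0 : ∀ t z, 0 < e₂ t z := fun t z => by rw [he₂]; exact Real.exp_pos _
  have hEE : ∀ t z, EE ν α R z₀ Y t z = e₁ t z + e₂ t z := fun t z => by rw [he₁, he₂]; rfl
  have d₁ : ∀ t z, HasDerivAt (e₁ t) (α * e₁ t z) z := fun t z => by
    rw [he₁]; exact ((hEd t z).exp).congr_deriv (by ring)
  have d₂ : ∀ t z, HasDerivAt (e₂ t) (-(α * e₂ t z)) z := fun t z => by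
    rw [he₂]; exact ((hEd' t z).exp).congr_deriv (by ring)
  have hbt : ∀ t ∈ Ioo 0 s, HasDerivAt (fun τ => α * (Y τ - R) + ν * α ^ 2 * τ)
      (α * g t + ν * α ^ 2) t := by
    intro t ht
    have h1 := ((hYd t ht).sub_const R).const_mul α
    have h2 := (hasDerivAt_id t).const_mul (ν * α ^ 2)
    exact (h1.add h2).congr_deriv (by ring)
  have t₁ : ∀ t ∈ Ioo 0 s, ∀ z, HasDerivAt (fun τ => e₁ τ z)
      ((α * g t + ν * α ^ 2) * e₁ t z) t := fun t ht z => by
    rw [he₁]; exact (((hbt t ht).const_add (α * (z - z₀))).exp).congr_deriv (by ring)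
  have t₂ : ∀ t ∈ Ioo 0 s, ∀ z, HasDerivAt (fun τ => e₂ τ z)
      ((α * g t + ν * α ^ 2) * e₂ t z) t := fun t ht z => by
    rw [he₂]; exact (((hbt t ht).const_add (-(α * (z - z₀)))).exp).congr_deriv (by ring)
  intro t ht x hxR hxZ
  apply le_of_forall_pos_le_add
  intro δ hδ
  have key := cmpZ (T := s) (S := R ^ 2) (A := M) hν h hM hδ hZc
    (Φ := fun t σ => 1 + η - KK ν s₀ y₀ t (√σ + Y t)) (Θ := fun t z => c * (e₁ t z + e₂ t z))
    (Θ₁ := fun t z => c * (α * e₁ t z - α * e₂ t z))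
    (Θ₂ := fun t z => c * (α ^ 2 * (e₁ t z + e₂ t z)))
    (Θt := fun t z => c * ((α * g t + ν * α ^ 2) * (e₁ t z + e₂ t z)))
    (fun t ht σ _ => le_trans (by norm_num) (hΦ t ht σ))
    (fun t _ z => mul_nonneg hc0 (add_nonneg (he₁0 t z).le (he₂0 t z).le))
    (by
      have h1 : ContinuousOn (fun z : ℝ × ℝ => √z.2 + Y z.1) (Ico 0 s ×ˢ Icc 0 (R ^ 2)) :=
        (Real.continuous_sqrt.comp continuous_snd).continuousOn.add
          (hYc.comp continuousOn_fst fun z hz => hz.1)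
      have h2 : ∀ z ∈ Ico 0 s ×ˢ Icc 0 (R ^ 2), z.1 + s₀ ≠ 0 := fun z hz => by
        have := hz.1.1
        positivity
      have h3 : ∀ z ∈ Ico 0 s ×ˢ Icc 0 (R ^ 2), 4 * ν * (z.1 + s₀) ≠ 0 := fun z hz => by
        have := hz.1.1
        positivity
      have h4 : ContinuousOn (fun z : ℝ × ℝ => z.1 + s₀) (Ico 0 s ×ˢ Icc 0 (R ^ 2)) := by fun_prop
      unfold KK LL
      exact continuousOn_const.sub ((((continuousOn_const.sub (h4.log h2)).div_const 2).sub
        (((h1.add continuousOn_const).pow 2).div (continuousOn_const.mul h4) h3)).rexp))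
    (by
      have h1 : ContinuousOn (fun z : ℝ × ℝ => α * (Y z.1 - R) + ν * α ^ 2 * z.1)
          (Ico 0 s ×ˢ univ) :=
        (continuousOn_const.mul ((hYc.comp continuousOn_fst fun z hz => hz.1).sub
          continuousOn_const)).add (by fun_prop)
      rw [he₁, he₂]
      refine continuousOn_const.mul (ContinuousOn.add ?_ ?_)
      · exact (ContinuousOn.add (by fun_prop) h1).rexp
      · exact (ContinuousOn.add (by fun_prop) h1).rexp)
    (fun t _ => by
      rw [he₁, he₂]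
      fun_prop)
    (fun t _ z => (((d₁ t z).add (d₂ t z)).const_mul c).congr_deriv (by ring))
    (fun t _ z => ((((d₁ t z).const_mul α).sub ((d₂ t z).const_mul α)).const_mul c).congr_deriv
      (by ring))
    (fun t ht z => (((t₁ t ht z).add (t₂ t ht z)).const_mul c).congr_deriv (by ring))
    (by
      intro y hy hyZ
      have hs0 : (0 : ℝ) ∈ Ico 0 s := ⟨le_rfl, ht.1.trans_lt ht.2⟩
      have h1 := hbd 0 hs0 y ((hsS y).1 hy) ((hZm _).1 hyZ)
      have h2 : KK ν s₀ y₀ 0 (√(sg y) + Y 0) ≤ η := by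
        refine le_trans ?_ hη1
        have := KK_le (s := 0) (y₀ := y₀) hν hs₀ (τ := 0) (y := √(sg y) + Y 0) le_rfl le_rfl hy₀.le
          (by have := Real.sqrt_nonneg (sg y); rw [hY0]; linarith)
        rwa [zero_add] at this
      have h3 : 0 ≤ c * (e₁ 0 (y 2) + e₂ 0 (y 2)) :=
        mul_nonneg hc0 (add_nonneg (he₁0 _ _).le (he₂0 _ _).le)
      have h4 : M * 1 ≤ M * ((1 + η - KK ν s₀ y₀ 0 (√(sg y) + Y 0))
          + c * (e₁ 0 (y 2) + e₂ 0 (y 2))) :=
        mul_le_mul_of_nonneg_left (by linarith) hM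
      linarith)
    (by
      intro t ht y hy hyZ
      have hyR : √(sg y) = R := by rw [hy, Real.sqrt_sq hR.le]
      have h1 := hbd t ht y hyR.le ((hZm _).1 hyZ)
      have h2 : KK ν s₀ y₀ t (√(sg y) + Y t) ≤ η := by
        refine le_trans ?_ hη2
        exact KK_le hν hs₀ ht.1 ht.2.le hR.le (by have := hYn t ht; rw [hyR]; linarith)
      have h3 : 0 ≤ c * (e₁ t (y 2) + e₂ t (y 2)) :=
        mul_nonneg hc0 (add_nonneg (he₁0 _ _).le (he₂0 _ _).le)
      have h4 : M * 1 ≤ M * ((1 + η - KK ν s₀ y₀ t (√(sg y) + Y t))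
          + c * (e₁ t (y 2) + e₂ t (y 2))) :=
        mul_le_mul_of_nonneg_left (by linarith) hM
      linarith)
    (by
      intro t ht y hy hyZ hyI
      have h1 := hbd t ht y ((hsS y).1 hy) ((hZm _).1 hyZ)
      have h2 := hZi _ hyI
      have hc1 : c = 1 := by
        rcases hc with h3 | h3
        · rw [h3, zero_mul] at h2
          linarith
        · exact h3
      rw [hc1, one_mul] at h2
      have hYt := hYn t ht
      have h3 : 1 ≤ e₁ t (y 2) + e₂ t (y 2) := by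
        have h5 : 0 ≤ α * Y t := mul_nonneg hα hYt
        have h6 : 0 ≤ ν * α ^ 2 * t := mul_nonneg (by positivity) ht.1
        rcases le_total 0 (y 2 - z₀) with h4 | h4
        · rw [abs_of_nonneg h4] at h2
          have h7 : α * R ≤ α * (y 2 - z₀) := mul_le_mul_of_nonneg_left h2 hα
          have : 1 ≤ e₁ t (y 2) := by
            rw [he₁]
            apply Real.one_le_exp
            linarith
          linarith [(he₂0 t (y 2)).le]
        · rw [abs_of_nonpos h4] at h2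
          have h7 : α * R ≤ α * (-(y 2 - z₀)) := mul_le_mul_of_nonneg_left h2 hα
          have : 1 ≤ e₂ t (y 2) := by
            rw [he₂]
            apply Real.one_le_exp
            linarith
          linarith [(he₁0 t (y 2)).le]
      have h4 := hΦ t ht (sg y)
      have h5 : M * 1 ≤ M * ((1 + η - KK ν s₀ y₀ t (√(sg y) + Y t))
          + c * (e₁ t (y 2) + e₂ t (y 2))) := by
        rw [hc1]
        exact mul_le_mul_of_nonneg_left (by linarith) hM
      linarith)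
    (by
      intro t ht y hy0 hyS hyZ hbig
      have htI : t ∈ Ico 0 s := Ioo_subset_Ico_self ht
      have hZ' := (hZm _).1 (interior_subset hyZ)
      have hρ0 : 0 < √(sg y) := Real.sqrt_pos.2 hy0
      have hρR : √(sg y) < R := by
        rw [← Real.sqrt_sq hR.le]
        exact Real.sqrt_lt_sqrt hy0.le hyS
      have h4 := hΦ t htI (sg y)
      have h3 : 0 ≤ c * (e₁ t (y 2) + e₂ t (y 2)) :=
        mul_nonneg hc0 (add_nonneg (he₁0 _ _).le (he₂0 _ _).le)
      have h5 : M / 2 < |circ (u t) y| := by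
        have h6 : M * (1 / 2) ≤ M * ((1 + η - KK ν s₀ y₀ t (√(sg y) + Y t))
          + c * (e₁ t (y 2) + e₂ t (y 2))) := mul_le_mul_of_nonneg_left (by linarith) hM
        have h7 : δ + M * ((1 + η - KK ν s₀ y₀ t (√(sg y) + Y t))
          + c * (e₁ t (y 2) + e₂ t (y 2))) < |circ (u t) y| := hbig
        linarith
      obtain ⟨hcd1, hcd2⟩ := hcond t ht y hρ0 hρR hZ' h5
      obtain ⟨χ, χ₁, c₂, d, ζ, hMj, hk⟩ := bar_maj (η := η) (s₀ := s₀) hν hy₀
        (by linarith [ht.1]) hy0 (hYd t ht) (hYn t htI) hcd1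
      refine ⟨χ, χ₁, c₂, d, ζ, hMj, ?_⟩
      have h8 : ν * (c * (α ^ 2 * (e₁ t (y 2) + e₂ t (y 2))))
          - u t y 2 * (c * (α * e₁ t (y 2) - α * e₂ t (y 2)))
          ≤ c * ((α * g t + ν * α ^ 2) * (e₁ t (y 2) + e₂ t (y 2))) := by
        rcases hc with hc1 | hc1
        · rw [hc1]
          linarith
        · have h9 := adv_ineq (z := y 2 - z₀) (w := u t y 2) (g := g t) (a := α)
            (e₁ := e₁ t (y 2)) (e₂ := e₂ t (y 2)) hα (hg t ht) (he₁0 _ _).le (he₂0 _ _).le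
            (fun hz => by
              rw [he₁, he₂]
              apply Real.exp_le_exp.2
              have := mul_nonneg hα hz.le
              linarith)
            (fun hz => by
              rw [he₁, he₂]
              apply Real.exp_le_exp.2
              have := mul_nonneg hα (neg_nonneg.2 hz.le)
              linarith)
            (fun hz => by
              rw [he₁, he₂]
              simp only [hz]
              simp)
            (hcd2 hc1)
          rw [hc1]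
          nlinarith
      have h10 : 4 * ν * sg y * c₂ - 2 * (y 0 * u t y 0 + y 1 * u t y 1) * χ₁ (sg y) ≤ d := hk
      show 4 * ν * sg y * c₂ - 2 * (y 0 * u t y 0 + y 1 * u t y 1) * χ₁ (sg y)
        + (ν * (c * (α ^ 2 * (e₁ t (y 2) + e₂ t (y 2))))
          - u t y 2 * (c * (α * e₁ t (y 2) - α * e₂ t (y 2))))
        ≤ d + c * ((α * g t + ν * α ^ 2) * (e₁ t (y 2) + e₂ t (y 2)))
      linarith)
    t ht x ((hsS x).2 hxR) ((hZm _).2 hxZ)
  rw [hEE]
  have e : M * (1 + η - KK ν s₀ y₀ t (√(sg x) + Y t) + c * (e₁ t (x 2) + e₂ t (x 2))) + δ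
      = δ + M * ((1 + η - KK ν s₀ y₀ t (√(sg x) + Y t)) + c * (e₁ t (x 2) + e₂ t (x 2))) := by
    ring
  rw [e]
  exact key

end Pool.Agent.NH62.AX
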