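import Pool.Agent.NH62.AX.Stp

/-!
Axisymmetric flows: the decay of the circulation from one time window to the next one (helper62).
-/

set_option autoImplicit false

open MeasureTheory Set Metric Filter Topology
open scoped ContDiff

namespace Pool.Agent.NH62.AX

open H459R3.NS W221.NS Pool.Agent.TH305.DR Pool.Agent.TH305.AX

variable {ν s c z₀ M κ κ₁ ε l : ℝ} {u : ℝ → V → V} {p : ℝ → V → ℝ}

lemma half_le {ε : ℝ} (hε : 0 < ε) (hε1 : ε ≤ 1) :
    Real.log (ε / 2) ≤ (Real.log (ε ^ 2) - Real.log (1 + ε ^ 2)) / 2 := by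
  have h1 : Real.log (ε / 2) = Real.log ((ε / 2) ^ 2) / 2 := by
    rw [Real.log_pow]
    push_cast
    ring
  rw [h1, ← Real.log_div (by positivity) (by positivity)]
  apply div_le_div_of_nonneg_right _ (by norm_num)
  apply Real.log_le_log (by positivity)
  rw [le_div_iff₀ (by positivity)]
  nlinarith [sq_nonneg ε, mul_le_mul hε1 hε1 hε.le zero_le_one]

theorem win (hν : 0 < ν) (hκ : 0 < κ) (hκ₁ : κ₁ ≤ 1) (hε : 0 < ε) (hε6 : ε ≤ 1 / 6)
    (hκε : √κ + 7 * ε ≤ √κ₁) (hs : 0 < s) (hl : 0 < l)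
    (hhalf : Real.exp (-(ε ^ 2 / (1 + ε ^ 2) * l)) ≤ 1 / 2) (h : BSol ν s u p) (hM : 0 ≤ M)
    (hc : c = 0 ∨ c = 1)
    (hbd : ∀ t ∈ Ico 0 s, ∀ x, √(sg x) ≤ 4 * √(4 * ν * s * l) →
      c * |x 2 - z₀| ≤ 4 * √(4 * ν * s * l) → |circ (u t) x| ≤ M)
    {Y g : ℝ → ℝ} (hY0 : Y 0 = 0) (hYc : ContinuousOn Y (Ico 0 s))
    (hYd : ∀ t ∈ Ioo 0 s, HasDerivAt Y (g t) t) (hYn : ∀ t ∈ Ico 0 s, 0 ≤ Y t)
    (hYD : ∀ t ∈ Ico 0 s, Y t ≤ √(4 * κ * ν * s * l))
    (hg : ∀ t ∈ Ioo 0 s, 0 ≤ g t)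
    (hcond : ∀ t ∈ Ioo 0 s, ∀ x, 0 < √(sg x) → √(sg x) < 4 * √(4 * ν * s * l) →
      c * |x 2 - z₀| ≤ 4 * √(4 * ν * s * l) → M / 2 < |circ (u t) x| →
      -ν - g t * √(sg x) ≤ x 0 * u t x 0 + x 1 * u t x 1 ∧
      (c = 1 → -(g t * |x 2 - z₀|) ≤ (x 2 - z₀) * u t x 2)) :
    ∀ t ∈ Ico (s - ε ^ 2 * s) s, ∀ x, √(sg x) ≤ 6 * ε * √(4 * ν * s * l) →
      c * |x 2 - z₀| ≤ 6 * ε * √(4 * ν * s * l) →
      |circ (u t) x| ≤ M * (1 - (ε / 2 * Real.exp (-(κ₁ * l)) - Real.exp (-l)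
        - 2 * Real.exp (-(4 * l)))) := by
  obtain ⟨Q, hQ⟩ : ∃ Q, Q = √(4 * ν * s * l) := ⟨_, rfl⟩
  have hQ0 : 0 < Q := by rw [hQ]; exact Real.sqrt_pos.2 (by positivity)
  have hQ2 : Q ^ 2 = 4 * ν * s * l := by rw [hQ]; exact Real.sq_sqrt (by positivity)
  have hD : √(4 * κ * ν * s * l) = √κ * Q := by
    rw [hQ, ← Real.sqrt_mul hκ.le]
    congr 1
    ring
  rw [hD] at hYD
  rw [← hQ] at hbd hcond ⊢
  have hκ0 : 0 < √κ := Real.sqrt_pos.2 hκ
  have hκ₁1 : √κ₁ ≤ 1 := by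
    rw [← Real.sqrt_one]
    exact Real.sqrt_le_sqrt hκ₁
  have hκ₁0 : 0 ≤ κ₁ := by
    by_contra hcon
    push Not at hcon
    rw [Real.sqrt_eq_zero_of_nonpos hcon.le] at hκε
    linarith
  have hε1 : ε ≤ 1 := by linarith
  have hss : 0 < ε ^ 2 * s := by positivity
  have key := step (R := 4 * Q) (s₀ := ε ^ 2 * s) (y₀ := ε * Q) (η := Real.exp (-l))
    (α := Q / (ν * s)) (c := c) (z₀ := z₀) hν h (by positivity) hss (by positivity) hM
    (Real.exp_pos _).le (by positivity) hc hbd hY0 hYc hYd hYn hg hcond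
    (by
      apply Real.exp_le_exp.2
      have e : (ε * Q) ^ 2 / (4 * ν * (ε ^ 2 * s)) = l := by
        rw [mul_pow, hQ2]
        field_simp
      rw [e])
    (by
      apply Real.exp_le_exp.2
      have e : (4 * Q) ^ 2 / (4 * ν * (s + ε ^ 2 * s)) = 16 / (1 + ε ^ 2) * l := by
        rw [mul_pow, hQ2]
        field_simp
        ring
      rw [e]
      have h1 : (1 : ℝ) ≤ 16 / (1 + ε ^ 2) := by
        rw [le_div_iff₀ (by positivity)]
        nlinarith
      nlinarith)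
    (by
      have e : (ε * Q) ^ 2 / (4 * ν * (s + ε ^ 2 * s)) = ε ^ 2 / (1 + ε ^ 2) * l := by
        rw [mul_pow, hQ2]
        field_simp
      rw [e]
      exact hhalf)
  intro t ht x hx hxz
  have ht0 : 0 ≤ t := by
    have h1 : ε ^ 2 ≤ 1 := by nlinarith
    have h2 : ε ^ 2 * s ≤ 1 * s := by gcongr
    linarith [ht.1]
  have htI : t ∈ Ico 0 s := ⟨ht0, ht.2⟩
  have h6 : 6 * ε * Q ≤ 4 * Q := by
    have : 6 * ε * Q ≤ 1 * Q := mul_le_mul_of_nonneg_right (by linarith) hQ0.le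
    linarith
  refine (key t htI x (hx.trans h6) (hxz.trans h6)).trans ?_
  apply mul_le_mul_of_nonneg_left _ hM
  -- the kernel
  have hρ := Real.sqrt_nonneg (sg x)
  have hYt := hYn t htI
  have hYt2 := hYD t htI
  have hK : ε / 2 * Real.exp (-(κ₁ * l)) ≤ KK ν (ε ^ 2 * s) (ε * Q) t (√(sg x) + Y t) := by
    have e1 : ε / 2 * Real.exp (-(κ₁ * l)) = Real.exp (Real.log (ε / 2) + -(κ₁ * l)) := by
      rw [Real.exp_add, Real.exp_log (by positivity)]
    rw [e1]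
    unfold KK LL
    apply Real.exp_le_exp.2
    have hP1 : s ≤ t + ε ^ 2 * s := by linarith [ht.1]
    have hP2 : t + ε ^ 2 * s ≤ (1 + ε ^ 2) * s := by linarith [ht.2]
    have h1 : Real.log (t + ε ^ 2 * s) ≤ Real.log (1 + ε ^ 2) + Real.log s := by
      rw [← Real.log_mul (by positivity) hs.ne']
      exact Real.log_le_log (by linarith) hP2
    have h2 : Real.log (ε ^ 2 * s) = Real.log (ε ^ 2) + Real.log s :=
      Real.log_mul (by positivity) hs.ne'
    have h3 := half_le hε hε1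
    have h4 : (√(sg x) + Y t + ε * Q) ^ 2 / (4 * ν * (t + ε ^ 2 * s)) ≤ κ₁ * l := by
      have h5 : √(sg x) + Y t + ε * Q ≤ √κ₁ * Q := by
        calc √(sg x) + Y t + ε * Q ≤ 6 * ε * Q + √κ * Q + ε * Q := by linarith
          _ = (√κ + 7 * ε) * Q := by ring
          _ ≤ √κ₁ * Q := by gcongr
      have h6 : (√(sg x) + Y t + ε * Q) ^ 2 ≤ κ₁ * (4 * ν * s * l) := by
        calc (√(sg x) + Y t + ε * Q) ^ 2 ≤ (√κ₁ * Q) ^ 2 := by
              apply pow_le_pow_left₀ (by positivity) h5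
          _ = κ₁ * (4 * ν * s * l) := by
              rw [mul_pow, Real.sq_sqrt hκ₁0, hQ2]
      rw [div_le_iff₀ (by positivity)]
      refine h6.trans ?_
      have h7 : 4 * ν * s ≤ 4 * ν * (t + ε ^ 2 * s) := by gcongr
      calc κ₁ * (4 * ν * s * l) = κ₁ * l * (4 * ν * s) := by ring
        _ ≤ κ₁ * l * (4 * ν * (t + ε ^ 2 * s)) := by gcongr
    linarith
  -- the axial part
  have hc0 : 0 ≤ c := by rcases hc with h1 | h1 <;> rw [h1] <;> norm_num
  have hE : c * EE ν (Q / (ν * s)) (4 * Q) z₀ Y t (x 2) ≤ 2 * Real.exp (-(4 * l)) := by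
    rcases hc with h1 | h1
    · rw [h1, zero_mul]
      positivity
    · rw [h1, one_mul] at hxz ⊢
      have hz := abs_le.1 hxz
      have ha : 0 < Q / (ν * s) := by positivity
      have hb : Q / (ν * s) * (Y t - 4 * Q) + ν * (Q / (ν * s)) ^ 2 * t
          ≤ -(Q / (ν * s) * (6 * ε * Q)) + -(4 * l) := by
        have e1 : ν * (Q / (ν * s)) ^ 2 * t ≤ ν * (Q / (ν * s)) ^ 2 * s := by
          apply mul_le_mul_of_nonneg_left ht.2.le (by positivity)
        have e2 : ν * (Q / (ν * s)) ^ 2 * s = 4 * l := by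
          rw [div_pow, hQ2]
          field_simp
        have e3 : Y t - 4 * Q + 6 * ε * Q ≤ -(2 * Q) := by
          have h2 : √κ * Q ≤ 1 * Q := mul_le_mul_of_nonneg_right (by linarith) hQ0.le
          have h3 : 6 * ε * Q ≤ 1 * Q := mul_le_mul_of_nonneg_right (by linarith) hQ0.le
          linarith
        have e4 := mul_le_mul_of_nonneg_left e3 ha.le
        have e5 : Q / (ν * s) * -(2 * Q) = -(8 * l) := by
          have : Q / (ν * s) * -(2 * Q) = -(2 * Q ^ 2 / (ν * s)) := by ring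
          rw [this, hQ2]
          field_simp
          ring
        rw [e5] at e4
        linarith
      have k1 : Q / (ν * s) * (x 2 - z₀) ≤ Q / (ν * s) * (6 * ε * Q) := by
        apply mul_le_mul_of_nonneg_left hz.2 ha.le
      have k2 : -(Q / (ν * s) * (x 2 - z₀)) ≤ Q / (ν * s) * (6 * ε * Q) := by
        rw [← mul_neg]
        apply mul_le_mul_of_nonneg_left (by linarith [hz.1]) ha.le
      unfold EE
      have g1 : Real.exp (Q / (ν * s) * (x 2 - z₀)
          + (Q / (ν * s) * (Y t - 4 * Q) + ν * (Q / (ν * s)) ^ 2 * t)) ≤ Real.exp (-(4 * l)) :=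
        Real.exp_le_exp.2 (by linarith)
      have g2 : Real.exp (-(Q / (ν * s) * (x 2 - z₀))
          + (Q / (ν * s) * (Y t - 4 * Q) + ν * (Q / (ν * s)) ^ 2 * t)) ≤ Real.exp (-(4 * l)) :=
        Real.exp_le_exp.2 (by linarith)
      linarith
  linarith

/-- Shift in time. -/
lemma shift {T a : ℝ} (h : BSol ν T u p) (ha : 0 ≤ a) :
    BSol ν (T - a) (fun t => u (a + t)) (fun t => p (a + t)) where
  smooth_u := by
    have h1 : ContDiff ℝ ∞ fun z : ℝ × V => (a + z.1, z.2) := by fun_prop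
    exact h.smooth_u.comp h1.contDiffOn fun z hz =>
      ⟨⟨by linarith [hz.1.1], by linarith [hz.1.2]⟩, trivial⟩
  smooth_p := by
    have h1 : ContDiff ℝ ∞ fun z : ℝ × V => (a + z.1, z.2) := by fun_prop
    exact h.smooth_p.comp h1.contDiffOn fun z hz =>
      ⟨⟨by linarith [hz.1.1], by linarith [hz.1.2]⟩, trivial⟩
  divfree := fun t ht => h.divfree (a + t) ⟨by linarith [ht.1], by linarith [ht.2]⟩
  momentum := by
    intro t ht x i
    have h1 := h.momentum (a + t) ⟨by linarith [ht.1], by linarith [ht.2]⟩ x i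
    have h2 : deriv (fun s => u (a + s) x i) t = deriv (fun s => u s x i) (a + t) :=
      deriv_comp_const_add (f := fun s => u s x i) a t
    rw [h2]
    exact h1
  axi := fun t ht => h.axi (a + t) ⟨by linarith [ht.1], by linarith [ht.2]⟩
  bdd := by
    intro T' hT'
    obtain ⟨U, hU⟩ := h.bdd (a + T') (by linarith)
    exact ⟨U, fun t ht x => hU (a + t) ⟨by linarith [ht.1], by linarith [ht.2]⟩ x⟩

end Pool.Agent.NH62.AX
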